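import Mathlib
import Pool.Agent.U213.EC.Defs

/-!
# Elliptic curves over `ℚ` and number fields given by products of two-dimensional Artin representations

The published theorems on the central values of the twists of an elliptic curve over `ℚ` by linear
characters, by odd two-dimensional representations and by products of two of these, and the period `Ω(A)`
of the problem for the curve `A` over a number field `M`.
-/

set_option autoImplicit false

open NumberField Filter Topology

namespace Pool.Agent.U213.TP

open Pool.Agent.U213.EC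

section

variable {F : Type} [Field F] [NumberField F] [IsGalois ℚ F]

/-- the number of the embeddings of `M` in `F` which are fixed by `σ`: the character of the permutation
representation of the Galois group of `F` on the embeddings of `M`, that is, of the representation
induced from the trivial character of the Galois group of `F` over `M` -/
noncomputable def fix (M : IntermediateField ℚ F) (σ : F ≃ₐ[ℚ] F) : ℕ :=
  Nat.card {φ : M →ₐ[ℚ] F // ∀ x, σ (φ x) = φ x}

/-- `σ` is the identity on all conjugates of `M`, that is, on the Galois closure of `M` -/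
def Triv (M : IntermediateField ℚ F) (σ : F ≃ₐ[ℚ] F) : Prop := ∀ (φ : M →ₐ[ℚ] F) (x : M), σ (φ x) = φ x

open Classical in
/-- the sign of the permutation `φ ↦ σ ∘ φ` of the embeddings of `M` in `F` (the quadratic character of
`ℚ(√d_M)`) -/
noncomputable def sgn (M : IntermediateField ℚ F) (σ : F ≃ₐ[ℚ] F) : ℤ :=
  Equiv.Perm.sign (⟨fun φ => (σ : F →ₐ[ℚ] F).comp φ, fun φ => ((σ⁻¹ : F ≃ₐ[ℚ] F) : F →ₐ[ℚ] F).comp φ,
    fun φ => by
      ext x
      change σ⁻¹ (σ (φ x)) = φ x
      rw [← AlgEquiv.mul_apply, inv_mul_cancel]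
      rfl, fun φ => by
      ext x
      change σ (σ⁻¹ (φ x)) = φ x
      rw [← AlgEquiv.mul_apply, mul_inv_cancel]
      rfl⟩ : Equiv.Perm (M →ₐ[ℚ] F))

/-- the Galois closure of `M` is the field of the projective representation of `ρ`: the matrix `ρ σ` is a
scalar matrix if and only if `σ` is the identity on the Galois closure of `M` -/
def Cuts {E : Type} [Field E] (M : IntermediateField ℚ F)
    (ρ : (F ≃ₐ[ℚ] F) →* Matrix (Fin 2) (Fin 2) E) : Prop :=
  ∀ σ, Triv M σ ↔ ∃ a : E, ρ σ = Matrix.scalar (Fin 2) a

/-- **The number `Ω(A)`** of the problem, for the elliptic curve `A` over the number field `M`: the product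
of `|d_M|^(1/2)`, of the real period for every real place, and of `Im(Ω₁ · conj Ω₂)` for every complex
place, where `Ω₁` is a real and `Ω₂` a purely imaginary period (the curve and its differential are defined
over `ℚ`, so that all embeddings have the same lattice). -/
noncomputable def Omega (D : Data F) (M : IntermediateField ℚ F) : ℝ :=
  √|(discr M : ℝ)| * D.Ωp.re ^ InfinitePlace.nrRealPlaces M *
    (D.Ωp * starRingEnd ℂ D.Ωm).im ^ InfinitePlace.nrComplexPlaces M

variable (D : Data F) {E : Type} [Field E]

/-- `ρ` is an odd two-dimensional representation which is irreducible over `ℂ` (its image is not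
commutative) -/
structure OddRep (ρ : (F ≃ₐ[ℚ] F) →* Matrix (Fin 2) (Fin 2) E) : Prop where
  odd : (ρ D.c).det = -1
  irr : ∃ σ τ, ρ σ * ρ τ ≠ ρ τ * ρ σ

/-- the characters of the representations for which the algebraicity of the central value is published:
linear characters; odd irreducible two-dimensional representations; the product of two odd irreducible
two-dimensional representations whose determinants are inverse to each other -/
def Basic (f : (F ≃ₐ[ℚ] F) → E) : Prop :=
  (∃ ρ : (F ≃ₐ[ℚ] F) →* Matrix (Fin 1) (Fin 1) E, ∀ σ, f σ = (ρ σ).trace) ∨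
  (∃ ρ : (F ≃ₐ[ℚ] F) →* Matrix (Fin 2) (Fin 2) E, OddRep D ρ ∧ ∀ σ, f σ = (ρ σ).trace) ∨
  ∃ ρ ρ' : (F ≃ₐ[ℚ] F) →* Matrix (Fin 2) (Fin 2) E, OddRep D ρ ∧ OddRep D ρ' ∧
    (∀ σ, (ρ σ).det * (ρ' σ).det = 1) ∧ ∀ σ, f σ = (ρ σ).trace * (ρ' σ).trace

/-- **The assertion for the curve `A` over `M`**: the L-function of `A` over `M` (the one of `A` twisted by
the permutation character `fix M`, without the Euler factors at the primes in `S`) is meromorphic on `ℂ`
and has at `s = 1` the value `q Ω(A)` for a rational number `q`. -/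
def Rational (M : IntermediateField ℚ F) : Prop :=
  ∃ (q : ℚ) (ℓ : ℂ → ℂ), D.IsL (fun σ => (fix M σ : ℂ)) ℓ ∧
    Tendsto ℓ (𝓝[≠] 1) (𝓝 (q * (Omega D M : ℂ)))

/-- `L(A, f, 1) ≠ 0` -/
def NonzeroAtOne (f : (F ≃ₐ[ℚ] F) → ℂ) : Prop :=
  ∀ ℓ : ℂ → ℂ, D.IsL f ℓ → ¬ Tendsto ℓ (𝓝[≠] 1) (𝓝 0)

end

/-- Known (Manin, Shimura 1977; `A` is modular by Wiles and Breuil–Conrad–Diamond–Taylor): Deligne's
conjecture at `s = 1` for the twists of elliptic curves over `ℚ` by linear characters. -/
def LinearTwists : Prop :=
  ∀ (F : Type) [Field F] [NumberField F] [IsGalois ℚ F] (D : Data F) (E : Type) [Field E]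
    [NumberField E] (ρ : (F ≃ₐ[ℚ] F) →* Matrix (Fin 1) (Fin 1) E), D.Deligne ρ

/-- Known (Shimura 1976 for the Rankin product of forms of weights two and one; Khare–Wintenberger for the
modularity of `ρ`): Deligne's conjecture at `s = 1` for the twists of elliptic curves over `ℚ` by odd
irreducible two-dimensional representations. -/
def RankinProducts : Prop :=
  ∀ (F : Type) [Field F] [NumberField F] [IsGalois ℚ F] (D : Data F) (E : Type) [Field E]
    [NumberField E] (ρ : (F ≃ₐ[ℚ] F) →* Matrix (Fin 2) (Fin 2) E), OddRep D ρ → D.Deligne ρ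

/-- Known (Garrett, Harris–Kudla 1991 for the central value of the triple product of forms of weights two,
one and one; Khare–Wintenberger): Deligne's conjecture at `s = 1` for the twists of elliptic curves over
`ℚ` by `ρ₁ ⊗ ρ₂`, where `ρ₁` and `ρ₂` are odd irreducible two-dimensional representations with
`det ρ₁ det ρ₂ = 1`. -/
def TripleProducts : Prop :=
  ∀ (F : Type) [Field F] [NumberField F] [IsGalois ℚ F] (D : Data F) (E : Type) [Field E]
    [NumberField E] (ρ₁ ρ₂ : (F ≃ₐ[ℚ] F) →* Matrix (Fin 2) (Fin 2) E), OddRep D ρ₁ → OddRep D ρ₂ →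
    (∀ σ, (ρ₁ σ).det * (ρ₂ σ).det = 1) →
    ∀ ρ : (F ≃ₐ[ℚ] F) →* Matrix (Fin 4) (Fin 4) E,
      (∀ σ, (ρ σ).trace = (ρ₁ σ).trace * (ρ₂ σ).trace) → D.Deligne ρ

end Pool.Agent.U213.TP
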