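import Mathlib
import Pool.Agent.U213.EC.LFun
import Pool.Agent.U213.TP.Defs

/-!
# The permutation representation on the embeddings of a subfield, and its period
-/

set_option autoImplicit false
set_option linter.unusedSectionVars false

open NumberField

namespace Pool.Agent.U213.TP

open Pool.Agent.U213.EC

section perm

variable {F : Type} [Field F] [NumberField F] [IsGalois ℚ F] (M : IntermediateField ℚ F)

/-- the action on the embeddings -/
noncomputable def act (σ : F ≃ₐ[ℚ] F) : Equiv.Perm (M →ₐ[ℚ] F) where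
  toFun φ := (σ : F →ₐ[ℚ] F).comp φ
  invFun φ := ((σ⁻¹ : F ≃ₐ[ℚ] F) : F →ₐ[ℚ] F).comp φ
  left_inv φ := by
    ext x
    change σ⁻¹ (σ (φ x)) = φ x
    rw [← AlgEquiv.mul_apply, inv_mul_cancel]
    rfl
  right_inv φ := by
    ext x
    change σ (σ⁻¹ (φ x)) = φ x
    rw [← AlgEquiv.mul_apply, mul_inv_cancel]
    rfl

lemma act_apply (σ : F ≃ₐ[ℚ] F) (φ : M →ₐ[ℚ] F) (x : M) : act M σ φ x = σ (φ x) := rfl

/-- the action as a homomorphism -/
noncomputable def actHom : (F ≃ₐ[ℚ] F) →* Equiv.Perm (M →ₐ[ℚ] F) where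
  toFun := act M
  map_one' := by
    ext φ x
    rfl
  map_mul' σ τ := by
    ext φ x
    rfl

open Classical in
/-- permutation matrices -/
noncomputable def pm {d : ℕ} {E : Type} [Field E] : Equiv.Perm (Fin d) →* Matrix (Fin d) (Fin d) E where
  toFun s := Matrix.of fun i j => if i = s j then (1 : E) else 0
  map_one' := by
    ext i j
    rw [Matrix.of_apply, Matrix.one_apply]
    rfl
  map_mul' s t := by
    ext i j
    rw [Matrix.mul_apply, Matrix.of_apply]
    simp only [Matrix.of_apply]
    rw [Finset.sum_eq_single (t j)]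
    · rw [if_pos rfl, mul_one]
      rfl
    · intro k _ hk
      simp [hk]
    · intro h
      exact absurd (Finset.mem_univ _) h

lemma pm_det {d : ℕ} {E : Type} [Field E] (s : Equiv.Perm (Fin d)) :
    (pm (E := E) s).det = ((Equiv.Perm.sign s : ℤ) : E) := by
  classical
  have h1 : pm (E := E) s = (s⁻¹).permMatrix E := by
    ext i j
    change (if i = s j then (1 : E) else 0) = _
    rw [Equiv.Perm.permMatrix, PEquiv.toMatrix_apply, Equiv.toPEquiv_apply]
    congr 1
    rw [eq_iff_iff, Option.mem_def, Option.some_inj, Equiv.Perm.inv_eq_iff_eq]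
  rw [h1, Matrix.det_permutation, Equiv.Perm.sign_inv]

lemma pm_trace {d : ℕ} {E : Type} [Field E] (s : Equiv.Perm (Fin d)) :
    (pm (E := E) s).trace = (Nat.card {i : Fin d // s i = i} : E) := by
  classical
  change ∑ i, (if i = s i then (1 : E) else 0) = _
  rw [Finset.sum_boole, Nat.card_eq_fintype_card, Fintype.card_subtype]
  congr 2
  ext i
  simp [eq_comm]

/-- the number of embeddings -/
noncomputable def deg : ℕ := Nat.card (M →ₐ[ℚ] F)

/-- numbering of the embeddings -/
noncomputable def num : (M →ₐ[ℚ] F) ≃ Fin (deg M) := Finite.equivFin _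

/-- the permutation representation -/
noncomputable def permRep (E : Type) [Field E] :
    (F ≃ₐ[ℚ] F) →* Matrix (Fin (deg M)) (Fin (deg M)) E :=
  (pm (E := E)).comp (((num M).permCongrHom.toMonoidHom).comp (actHom M))

lemma permRep_apply (E : Type) [Field E] (σ : F ≃ₐ[ℚ] F) :
    permRep M E σ = pm ((num M).permCongr (act M σ)) := rfl

lemma permRep_det (E : Type) [Field E] (σ : F ≃ₐ[ℚ] F) [DecidableEq (M →ₐ[ℚ] F)] :
    (permRep M E σ).det = ((Equiv.Perm.sign (act M σ) : ℤ) : E) := by
  rw [permRep_apply, pm_det, Equiv.Perm.sign_permCongr]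

lemma permRep_trace (E : Type) [Field E] (σ : F ≃ₐ[ℚ] F) :
    (permRep M E σ).trace = (fix M σ : E) := by
  rw [permRep_apply, pm_trace, fix]
  congr 1
  refine Nat.card_congr ⟨fun i => ⟨(num M).symm i.1, ?_⟩, fun φ => ⟨num M φ.1, ?_⟩, ?_, ?_⟩
  · intro x
    have h1 := i.2
    rw [Equiv.permCongr_apply] at h1
    have h2 : act M σ ((num M).symm i.1) = (num M).symm i.1 := (num M).injective (by
      rw [h1, Equiv.apply_symm_apply])
    rw [← act_apply, h2]
  · rw [Equiv.permCongr_apply, Equiv.symm_apply_apply]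
    congr 1
    ext x
    exact φ.2 x
  · intro i
    exact Subtype.ext ((num M).apply_symm_apply i.1)
  · intro φ
    exact Subtype.ext ((num M).symm_apply_apply φ.1)

end perm

end Pool.Agent.U213.TP
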