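import Mathlib
import Pool.Agent.U213.EC.Per
import Pool.Agent.U213.TP.Perm

/-!
# The period of the permutation representation
-/

set_option autoImplicit false
set_option linter.unusedSectionVars false

open NumberField Module

namespace Pool.Agent.U213.TP

open Pool.Agent.U213.EC

section

variable {F : Type} [Field F] [NumberField F] [IsGalois ℚ F] (M : IntermediateField ℚ F)
  (D : Data F)

/-- embeddings in `F` and in `ℂ` -/
noncomputable def emb : (M →ₐ[ℚ] F) ≃ (M →+* ℂ) := by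
  refine Equiv.ofBijective (fun φ => D.ι.comp (φ : M →+* F)) ?_
  have hinj : Function.Injective (fun φ : M →ₐ[ℚ] F => D.ι.comp (φ : M →+* F)) := by
    intro φ ψ h
    ext x
    exact D.ι.injective (RingHom.congr_fun h x)
  refine (Fintype.bijective_iff_injective_and_card _).mpr ⟨hinj, ?_⟩
  rw [NumberField.Embeddings.card M ℂ, AlgHom.card_of_splits ℚ M F]
  intro x
  have h1 := Normal.splits (inferInstance : Normal ℚ F) (x : F)
  have h2 : minpoly ℚ (x : F) = minpoly ℚ x := minpoly.algebraMap_eq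
    (algebraMap M F).injective x
  rw [← h2]
  exact h1

lemma emb_apply (φ : M →ₐ[ℚ] F) (x : M) : emb M D φ x = D.ι (φ x) := rfl

include D in
lemma deg_eq : deg M = finrank ℚ M := by
  rw [deg, Nat.card_congr (emb M D), Nat.card_eq_fintype_card, NumberField.Embeddings.card M ℂ]

lemma fix_c : fix M D.c = InfinitePlace.nrRealPlaces M := by
  classical
  rw [← InfinitePlace.card_real_embeddings, fix, ← Nat.card_eq_fintype_card]
  refine Nat.card_congr ((emb M D).subtypeEquiv fun φ => ?_)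
  rw [ComplexEmbedding.isReal_iff]
  constructor
  · intro h
    ext x
    rw [ComplexEmbedding.conjugate_coe_eq, emb_apply, ← D.ι_c, h]
  · intro h x
    apply D.ι.injective
    have h1 := RingHom.congr_fun h x
    rw [ComplexEmbedding.conjugate_coe_eq, emb_apply, ← D.ι_c] at h1
    exact h1

/-- the multiplicities of the eigenvalues of complex conjugation -/
lemma mult_perm (E : Type) [Field E] (τ : E →+* ℂ) :
    (bc τ (permRep M E) D.c).charpoly.rootMultiplicity 1
      = InfinitePlace.nrRealPlaces M + InfinitePlace.nrComplexPlaces M ∧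
    (bc τ (permRep M E) D.c).charpoly.rootMultiplicity (-1) = InfinitePlace.nrComplexPlaces M := by
  have hc : (bc τ (permRep M E) D.c) ^ 2 = 1 := by rw [← map_pow, D.c_sq, map_one]
  have h1 := mult_eq (N := 2) Nat.zero_lt_two hc (z := 1) (by norm_num)
  have h2 := mult_eq (N := 2) Nat.zero_lt_two hc (z := -1) (by norm_num)
  have h3 : (bc τ (permRep M E) D.c).trace = (InfinitePlace.nrRealPlaces M : ℂ) := by
    rw [bc_trace, permRep_trace, map_natCast, fix_c]
  have h4 : ((1 : Matrix (Fin (deg M)) (Fin (deg M)) ℂ)).trace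
      = (InfinitePlace.nrRealPlaces M + 2 * InfinitePlace.nrComplexPlaces M : ℂ) := by
    rw [Matrix.trace_one, Fintype.card_fin, deg_eq M D,
      ← InfinitePlace.card_add_two_mul_card_eq_rank M]
    push_cast
    ring
  simp only [Finset.sum_range_succ, Finset.sum_range_zero, zero_add, pow_zero, pow_one, h3, h4]
    at h1 h2
  constructor
  · have h5 : ((2 : ℕ) : ℂ) * ((bc τ (permRep M E) D.c).charpoly.rootMultiplicity 1 : ℂ)
        = ((2 : ℕ) : ℂ) * ((InfinitePlace.nrRealPlaces M + InfinitePlace.nrComplexPlaces M : ℕ) : ℂ) := by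
      rw [← h1]
      push_cast
      norm_num
      ring
    exact_mod_cast mul_left_cancel₀ (by norm_num) h5
  · have h5 : ((2 : ℕ) : ℂ) * ((bc τ (permRep M E) D.c).charpoly.rootMultiplicity (-1) : ℂ)
        = ((2 : ℕ) : ℂ) * ((InfinitePlace.nrComplexPlaces M : ℕ) : ℂ) := by
      rw [← h2]
      push_cast
      norm_num
    exact_mod_cast mul_left_cancel₀ (by norm_num) h5

open Classical in
/-- the square root of the discriminant in `F` -/
noncomputable def root : F :=
  (Matrix.of fun (i φ : M →ₐ[ℚ] F) => φ (integralBasis M (equivReindex M (emb M D i)))).det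

open Classical in
lemma act_root (σ : F ≃ₐ[ℚ] F) : σ (root M D) = ((Equiv.Perm.sign (act M σ) : ℤ) : F) * root M D := by
  have h1 : σ (root M D) = ((Matrix.of fun (i φ : M →ₐ[ℚ] F) =>
      φ (integralBasis M (equivReindex M (emb M D i)))).map σ).det :=
    (σ : F →+* F).map_det _
  rw [h1, root, ← Matrix.det_permute']
  rfl

open Classical in
lemma root_sq : D.ι (root M D) ^ 2 = (discr M : ℂ) := by
  rw [discr_eq_basisMatrix_det_sq]
  congr 1
  rw [root, RingHom.map_det, ← Matrix.det_submatrix_equiv_self (emb M D) (basisMatrix M)]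
  congr 1
  ext i φ
  simp [canonicalEmbedding.latticeBasis, emb_apply, Matrix.map_apply, canonicalEmbedding]

lemma root_ne : root M D ≠ 0 := by
  intro h
  have h1 := root_sq M D
  rw [h, map_zero, zero_pow two_ne_zero] at h1
  have h2 : discr M = 0 := by exact_mod_cast h1.symm
  exact discr_ne_zero M h2

open Classical in
/-- the resolvent of the sign is a rational multiple of the square root of the discriminant -/
lemma res_sign : ∃ q : ℚ, q ≠ 0 ∧
    ∑ σ : F ≃ₐ[ℚ] F, ((Equiv.Perm.sign (act M σ) : ℤ) : ℂ) * D.ι (σ D.x) = q * D.ι (root M D) := by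
  let ξ : F := ∑ σ : F ≃ₐ[ℚ] F, ((Equiv.Perm.sign (act M σ) : ℤ) : F) * σ D.x
  have h1 : ∀ g : F ≃ₐ[ℚ] F, g ξ = ((Equiv.Perm.sign (act M g) : ℤ) : F) * ξ := by
    intro g
    rw [map_sum, Finset.mul_sum]
    refine Fintype.sum_equiv (Equiv.mulLeft g) _ _ fun σ => ?_
    rw [map_mul, map_intCast, Equiv.coe_mulLeft]
    have h2 : act M (g * σ) = act M g * act M σ := (actHom M).map_mul g σ
    rw [h2, Equiv.Perm.sign_mul, ← mul_assoc]
    congr 1
    have h3 : (Equiv.Perm.sign (act M g) : ℤ) * (Equiv.Perm.sign (act M g) : ℤ) = 1 := by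
      rw [← Units.val_mul, Int.units_mul_self]
      rfl
    have h4 : ((Equiv.Perm.sign (act M g) * Equiv.Perm.sign (act M σ) : ℤˣ) : ℤ)
        = (Equiv.Perm.sign (act M g) : ℤ) * (Equiv.Perm.sign (act M σ) : ℤ) := by
      rw [Units.val_mul]
    rw [h4, ← Int.cast_mul, ← mul_assoc, h3, one_mul]
  have h2 : ∀ g : F ≃ₐ[ℚ] F, g (ξ / root M D) = ξ / root M D := by
    intro g
    rw [map_div₀, h1, act_root]
    have h3 : ((Equiv.Perm.sign (act M g) : ℤ) : F) ≠ 0 := by
      have : (Equiv.Perm.sign (act M g) : ℤ) ≠ 0 := Units.ne_zero _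
      exact_mod_cast this
    rw [mul_div_mul_left _ _ h3]
  have h3 : ξ / root M D ∈ (⊥ : IntermediateField ℚ F) := (IsGalois.mem_bot_iff_fixed _).mpr h2
  obtain ⟨q, hq⟩ := IntermediateField.mem_bot.mp h3
  have h4 : ξ = (q : F) * root M D := by
    have h5 : (q : F) = ξ / root M D := by
      rw [← hq]
      exact (eq_ratCast (algebraMap ℚ F) q).symm
    rw [h5, div_mul_cancel₀ _ (root_ne M D)]
  have h5 : ∑ σ : F ≃ₐ[ℚ] F, ((Equiv.Perm.sign (act M σ) : ℤ) : ℂ) * D.ι (σ D.x) = D.ι ξ := by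
    rw [map_sum]
    refine Finset.sum_congr rfl fun σ _ => ?_
    rw [map_mul, map_intCast]
  refine ⟨q, ?_, ?_⟩
  · rintro rfl
    let lam : (F ≃ₐ[ℚ] F) →* ℂˣ := (Units.map (Int.castRingHom ℂ).toMonoidHom).comp
      (Equiv.Perm.sign.comp (actHom M))
    have h6 := D.x_ne lam
    rw [finsum_eq_sum_of_fintype] at h6
    apply h6
    have h7 : ∑ σ : F ≃ₐ[ℚ] F, (lam σ : ℂ) * D.ι (σ D.x)
        = ∑ σ : F ≃ₐ[ℚ] F, ((Equiv.Perm.sign (act M σ) : ℤ) : ℂ) * D.ι (σ D.x) := rfl
    rw [h7, h5, h4, Rat.cast_zero, zero_mul, map_zero]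
  · rw [h5, h4, map_mul, map_ratCast]

lemma omega_ne : Omega D M ≠ 0 := by
  have h1 : D.Ωp.re ≠ 0 := by
    intro h
    exact D.Ωp_ne (Complex.ext h D.Ωp_im)
  have h2 : D.Ωm.im ≠ 0 := by
    intro h
    exact D.Ωm_ne (Complex.ext D.Ωm_re h)
  have h3 : (D.Ωp * starRingEnd ℂ D.Ωm).im ≠ 0 := by
    rw [Complex.mul_im, Complex.conj_im, Complex.conj_re, D.Ωp_im, zero_mul, add_zero]
    exact mul_ne_zero h1 (neg_ne_zero.mpr h2)
  have h4 : √|(discr M : ℝ)| ≠ 0 := by
    rw [Real.sqrt_ne_zero']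
    have : (discr M : ℝ) ≠ 0 := by exact_mod_cast discr_ne_zero M
    exact abs_pos.mpr this
  exact mul_ne_zero (mul_ne_zero h4 (pow_ne_zero _ h1)) (pow_ne_zero _ h3)

/-- the square root of the discriminant in `ℂ` -/
lemma root_eq : ∃ ε : ℚ, ε ≠ 0 ∧ D.ι (root M D)
    = ε * (Complex.I ^ InfinitePlace.nrComplexPlaces M * (√|(discr M : ℝ)| : ℝ)) := by
  have h1 := root_sq M D
  have h2 := sign_discr M
  have h3 : (discr M : ℂ) = (-1) ^ InfinitePlace.nrComplexPlaces M * (|(discr M : ℝ)| : ℝ) := by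
    have h4 : discr M = (discr M).sign * |discr M| := (Int.sign_mul_abs _).symm
    have h5 : ((discr M : ℤ) : ℂ) = (((discr M).sign : ℤ) : ℂ) * ((|discr M| : ℤ) : ℂ) := by
      rw [← Int.cast_mul, ← h4]
    have h6 : ((|discr M| : ℤ) : ℂ) = ((|(discr M : ℝ)| : ℝ) : ℂ) := by
      rw [← Int.cast_abs, Complex.ofReal_intCast]
    rw [h5, h2, h6]
    push_cast
    rfl
  have h4 : (Complex.I ^ InfinitePlace.nrComplexPlaces M * (√|(discr M : ℝ)| : ℝ)) ^ 2
      = D.ι (root M D) ^ 2 := by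
    rw [h1, h3, mul_pow, ← pow_mul, mul_comm _ 2, pow_mul, Complex.I_sq, ← Complex.ofReal_pow,
      Real.sq_sqrt (abs_nonneg _)]
  rcases sq_eq_sq_iff_eq_or_eq_neg.mp h4 with h5 | h5
  · exact ⟨1, one_ne_zero, by rw [h5]; simp⟩
  · exact ⟨-1, by norm_num, by rw [h5]; simp⟩

/-- **The period of the permutation representation** is `Ω(A)` for the curve over `M`, up to a rational
number. -/
theorem period_perm : ∃ q : ℚ, q ≠ 0 ∧ ∀ (E : Type) [Field E] (τ : E →+* ℂ),
    D.period (bc τ (permRep M E)) = q * (Omega D M : ℂ) := by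
  classical
  obtain ⟨q, hq0, hq⟩ := res_sign M D
  obtain ⟨ε, hε0, hε⟩ := root_eq M D
  refine ⟨q * ε, mul_ne_zero hq0 hε0, fun E _ τ => ?_⟩
  obtain ⟨h1, h2⟩ := mult_perm M D E τ
  have h3 : D.R (fun σ => (bc τ (permRep M E) σ).det) = q * D.ι (root M D) := by
    rw [← hq, Data.R_eq]
    refine Finset.sum_congr rfl fun σ _ => ?_
    rw [bc_det, permRep_det, map_intCast]
  have h4 : D.Ωp = (D.Ωp.re : ℂ) := Complex.ext rfl D.Ωp_im
  have h5 : D.Ωm = D.Ωm.im * Complex.I := Complex.ext (by simp [D.Ωm_re]) (by simp)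
  have h6 : ((D.Ωp * starRingEnd ℂ D.Ωm).im : ℂ) = Complex.I * D.Ωp * D.Ωm := by
    rw [Complex.mul_im, Complex.conj_im, Complex.conj_re, D.Ωp_im, zero_mul, add_zero]
    rw [h5, h4]
    push_cast
    simp only [Complex.mul_im, Complex.ofReal_re, Complex.I_im, Complex.ofReal_im, Complex.I_re,
      mul_one, mul_zero, add_zero]
    linear_combination (-(D.Ωp.re : ℂ) * (D.Ωm.im : ℂ)) * Complex.I_mul_I
  rw [Data.period, h1, h2, h3, hε, Omega]
  push_cast
  rw [h6, ← h4, mul_pow, mul_pow, pow_add]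
  ring

end

end Pool.Agent.U213.TP
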