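import Mathlib
import Pool.Agent.U213.EC.Per

/-!
# Periods of families of representations with the same total character
-/

set_option autoImplicit false
set_option linter.unusedSectionVars false

namespace Pool.Agent.U213.TP

open Pool.Agent.U213.EC Polynomial

section group

variable {G : Type} [Group G]

/-- The total multiplicities of the eigenvalues are determined by the total character. -/
lemma mult_rel {A B : Type} [Fintype A] [Fintype B] {a : A → ℕ} {b : B → ℕ}
    (r : ∀ i, G →* Matrix (Fin (a i)) (Fin (a i)) ℂ) (s : ∀ j, G →* Matrix (Fin (b j)) (Fin (b j)) ℂ)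
    (h : ∀ g, ∑ i, (r i g).trace = ∑ j, (s j g).trace) {g : G} {N : ℕ} (hN : 0 < N) (hg : g ^ N = 1)
    {z : ℂ} (hz : z ^ N = 1) :
    ∑ i, (r i g).charpoly.rootMultiplicity z = ∑ j, (s j g).charpoly.rootMultiplicity z := by
  have h1 : ∀ i, ∑ k ∈ Finset.range N, (r i g ^ k).trace * z⁻¹ ^ k
      = N * ((r i g).charpoly.rootMultiplicity z : ℂ) := fun i =>
    mult_eq hN (by rw [← map_pow, hg, map_one]) hz
  have h2 : ∀ j, ∑ k ∈ Finset.range N, (s j g ^ k).trace * z⁻¹ ^ k
      = N * ((s j g).charpoly.rootMultiplicity z : ℂ) := fun j =>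
    mult_eq hN (by rw [← map_pow, hg, map_one]) hz
  have h3 : (N : ℂ) * ((∑ i, (r i g).charpoly.rootMultiplicity z : ℕ) : ℂ)
      = N * ((∑ j, (s j g).charpoly.rootMultiplicity z : ℕ) : ℂ) := by
    push_cast
    rw [Finset.mul_sum, Finset.mul_sum, ← Finset.sum_congr rfl (fun i _ => h1 i),
      ← Finset.sum_congr rfl (fun j _ => h2 j), Finset.sum_comm, Finset.sum_comm (s := (Finset.univ : Finset B))]
    refine Finset.sum_congr rfl fun k _ => ?_
    rw [← Finset.sum_mul, ← Finset.sum_mul]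
    congr 1
    have h4 := h (g ^ k)
    simp only [map_pow] at h4
    exact h4
  have h4 : (N : ℂ) ≠ 0 := by exact_mod_cast hN.ne'
  exact_mod_cast mul_left_cancel₀ h4 h3

/-- The product of the determinants is determined by the total character. -/
lemma det_rel {A B : Type} [Fintype A] [Fintype B] {a : A → ℕ} {b : B → ℕ}
    (r : ∀ i, G →* Matrix (Fin (a i)) (Fin (a i)) ℂ) (s : ∀ j, G →* Matrix (Fin (b j)) (Fin (b j)) ℂ)
    (h : ∀ g, ∑ i, (r i g).trace = ∑ j, (s j g).trace) {g : G} {N : ℕ} (hN : 0 < N) (hg : g ^ N = 1) :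
    ∏ i, (r i g).det = ∏ j, (s j g).det := by
  rw [Finset.prod_congr rfl fun i _ => det_eq hN (A := r i g) (by rw [← map_pow, hg, map_one]),
    Finset.prod_congr rfl fun j _ => det_eq hN (A := s j g) (by rw [← map_pow, hg, map_one]),
    Finset.prod_comm, Finset.prod_comm (s := (Finset.univ : Finset B))]
  refine Finset.prod_congr rfl fun z hz => ?_
  rw [Finset.prod_pow_eq_pow_sum, Finset.prod_pow_eq_pow_sum,
    mult_rel r s h hN hg ((mem_nthRootsFinset hN _).mp hz)]

end group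

variable {F₀ : Type} [Field F₀] [NumberField F₀] [IsGalois ℚ F₀] (D : Data F₀)

/-- **The periods of two families of representations with the same total character** agree up to an
element of the coefficient field which does not depend on the embedding. -/
theorem period_rel {E : Type} [Field E] [CharZero E] [Nonempty (E →+* ℂ)] {A B : Type} [Fintype A]
    [Fintype B] {a : A → ℕ} {b : B → ℕ} (r : ∀ i, D.G →* Matrix (Fin (a i)) (Fin (a i)) E)
    (s : ∀ j, D.G →* Matrix (Fin (b j)) (Fin (b j)) E)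
    (h : ∀ g, ∑ i, (r i g).trace = ∑ j, (s j g).trace) :
    ∃ u : E, u ≠ 0 ∧ ∀ τ : E →+* ℂ,
      ∏ i, D.period (bc τ (r i)) = τ u * ∏ j, D.period (bc τ (s j)) := by
  classical
  obtain ⟨τ₀⟩ := ‹Nonempty (E →+* ℂ)›
  have hne : Nonempty (E →+* ℂ) := ⟨τ₀⟩
  have hτ : ∀ (τ : E →+* ℂ) (g : D.G), ∑ i, (bc τ (r i) g).trace = ∑ j, (bc τ (s j) g).trace := by
    intro τ g
    simp only [bc_trace]
    rw [← map_sum, ← map_sum, h]
  let lam : A → (D.G →* Eˣ) := fun i => (Matrix.detMonoidHom.comp (r i)).toHomUnits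
  let mu : B → (D.G →* Eˣ) := fun j => (Matrix.detMonoidHom.comp (s j)).toHomUnits
  have hlam : ∀ i g, ((lam i g : Eˣ) : E) = (r i g).det := fun i g => rfl
  have hmu : ∀ j g, ((mu j g : Eˣ) : E) = (s j g).det := fun j g => rfl
  have hdet : ∀ g, ∏ i, lam i g = ∏ j, mu j g := by
    intro g
    apply Units.ext
    apply τ₀.injective
    rw [Units.coe_prod, Units.coe_prod, map_prod, map_prod]
    simp only [hlam, hmu, ← bc_det]
    exact det_rel (fun i => bc τ₀ (r i)) (fun j => bc τ₀ (s j)) (hτ τ₀) D.exp_pos (D.pow_exp g)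
  have hx : ∀ mu : (F₀ ≃ₐ[ℚ] F₀) →* ℂˣ, ∑ σ, (mu σ : ℂ) * D.ι (σ D.x) ≠ 0 := by
    intro mu
    have := D.x_ne mu
    rwa [finsum_eq_sum_of_fintype] at this
  let δ : D.G →* Eˣ := ∏ i, lam i
  have hδ : ∀ g, δ g = ∏ i, lam i g := fun g => by
    change (∏ i, lam i) g = _
    rw [MonoidHom.finsetProd_apply]
  obtain ⟨u, hu0, hu⟩ := prod_res D.ι D.x hx (Finset.univ : Finset A) lam (fun _ => 1) δ
    (fun g => by simp only [pow_one]; exact (hδ g).symm)
  obtain ⟨v, hv0, hv⟩ := prod_res D.ι D.x hx (Finset.univ : Finset B) mu (fun _ => 1) δ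
    (fun g => by simp only [pow_one]; rw [hδ g, hdet g])
  refine ⟨u / v, div_ne_zero hu0 hv0, fun τ => ?_⟩
  have h1 : ∀ (i : A), D.period (bc τ (r i)) = (∑ σ, τ ((lam i σ : Eˣ) : E) * D.ι (σ D.x)) ^ 1 *
      D.Ωp ^ (bc τ (r i) D.c).charpoly.rootMultiplicity 1 *
      D.Ωm ^ (bc τ (r i) D.c).charpoly.rootMultiplicity (-1) := by
    intro i
    rw [Data.period, Data.R_eq, pow_one]
    simp only [bc_det, hlam]
  have h2 : ∀ (j : B), D.period (bc τ (s j)) = (∑ σ, τ ((mu j σ : Eˣ) : E) * D.ι (σ D.x)) ^ 1 *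
      D.Ωp ^ (bc τ (s j) D.c).charpoly.rootMultiplicity 1 *
      D.Ωm ^ (bc τ (s j) D.c).charpoly.rootMultiplicity (-1) := by
    intro j
    rw [Data.period, Data.R_eq, pow_one]
    simp only [bc_det, hmu]
  rw [Finset.prod_congr rfl fun i _ => h1 i, Finset.prod_congr rfl fun j _ => h2 j,
    Finset.prod_mul_distrib, Finset.prod_mul_distrib, Finset.prod_mul_distrib,
    Finset.prod_mul_distrib, hu τ, hv τ, Finset.prod_pow_eq_pow_sum, Finset.prod_pow_eq_pow_sum,
    Finset.prod_pow_eq_pow_sum, Finset.prod_pow_eq_pow_sum,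
    mult_rel (fun i => bc τ (r i)) (fun j => bc τ (s j)) (hτ τ) two_pos D.c_sq
      (by norm_num : (1 : ℂ) ^ 2 = 1),
    mult_rel (fun i => bc τ (r i)) (fun j => bc τ (s j)) (hτ τ) two_pos D.c_sq
      (by norm_num : (-1 : ℂ) ^ 2 = 1)]
  have h3 : τ (u / v) * (τ v * ∑ σ, τ ((δ σ : Eˣ) : E) * D.ι (σ D.x))
      = τ u * ∑ σ, τ ((δ σ : Eˣ) : E) * D.ι (σ D.x) := by
    rw [← mul_assoc, ← map_mul, div_mul_cancel₀ _ hv0]
  rw [← h3]
  ring

end Pool.Agent.U213.TP
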