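import Mathlib
import Pool.Agent.U213.EC.Desc
import Pool.Agent.U213.TP.Rel
import Pool.Agent.U213.TP.Disc

/-!
# The value at `s = 1` over number fields given by products of two-dimensional representations
-/

set_option autoImplicit false
set_option linter.unusedSectionVars false

open NumberField Filter Topology

namespace Pool.Agent.U213.TP

open Pool.Agent.U213.EC

section kron

variable {G : Type} [Group G] {E : Type} [Field E]

/-- the tensor product of two-dimensional representations -/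
noncomputable def tens (ρ ρ' : G →* Matrix (Fin 2) (Fin 2) E) : G →* Matrix (Fin 4) (Fin 4) E where
  toFun g := Matrix.reindex finProdFinEquiv finProdFinEquiv
    (Matrix.kroneckerMap (· * ·) (ρ g) (ρ' g))
  map_one' := by
    rw [map_one, map_one, Matrix.one_kronecker_one]
    ext i j
    simp [Matrix.one_apply]
  map_mul' a b := by
    rw [map_mul, map_mul, Matrix.mul_kronecker_mul]
    simp only [Matrix.reindex_apply]
    rw [Matrix.submatrix_mul_equiv]

lemma tens_trace (ρ ρ' : G →* Matrix (Fin 2) (Fin 2) E) (g : G) :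
    (tens ρ ρ' g).trace = (ρ g).trace * (ρ' g).trace := by
  rw [← Matrix.trace_kronecker]
  change (Matrix.reindex finProdFinEquiv finProdFinEquiv
    (Matrix.kroneckerMap (· * ·) (ρ g) (ρ' g))).trace = _
  rw [Matrix.reindex_apply, Matrix.trace, Matrix.trace]
  exact Fintype.sum_equiv finProdFinEquiv.symm _ _ fun i => rfl

end kron

variable {F : Type} [Field F] [NumberField F] [IsGalois ℚ F] (D : Data F)

/-- the published theorems -/
lemma deligne_of_basic (h1 : LinearTwists) (h2 : RankinProducts) (h3 : TripleProducts) {E : Type}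
    [Field E] [NumberField E] {f : (F ≃ₐ[ℚ] F) → E} (hf : Basic D f) :
    ∃ (n : ℕ) (ρ : (F ≃ₐ[ℚ] F) →* Matrix (Fin n) (Fin n) E), (∀ σ, f σ = (ρ σ).trace) ∧
      D.Deligne ρ := by
  rcases hf with ⟨ρ, h⟩ | ⟨ρ, hρ, h⟩ | ⟨ρ, ρ', hρ, hρ', hd, h⟩
  · exact ⟨1, ρ, h, h1 F D E ρ⟩
  · exact ⟨2, ρ, h, h2 F D E ρ hρ⟩
  · exact ⟨4, tens ρ ρ', fun σ => by rw [h, tens_trace],
      h3 F D E ρ ρ' hρ hρ' hd _ fun σ => tens_trace ρ ρ' σ⟩

/-- **The main theorem.** -/
theorem main (h1 : LinearTwists) (h2 : RankinProducts) (h3 : TripleProducts)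
    (M : IntermediateField ℚ F) {E : Type} [Field E] [NumberField E] {I J : Type} [Fintype I]
    [Fintype J] (f : I → (F ≃ₐ[ℚ] F) → E) (f' : J → (F ≃ₐ[ℚ] F) → E) (hf : ∀ i, Basic D (f i))
    (hf' : ∀ j, Basic D (f' j))
    (hne : ∀ j, ∃ τ : E →+* ℂ, NonzeroAtOne D (fun σ => τ (f' j σ)))
    (hid : ∀ σ, (fix M σ : E) + ∑ j, f' j σ = ∑ i, f i σ) :
    ∃ (q : ℚ) (ℓ : ℂ → ℂ), D.IsL (fun σ => (fix M σ : ℂ)) ℓ ∧
      Tendsto ℓ (𝓝[≠] 1) (𝓝 (q * (Omega D M : ℂ))) := by
  classical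
  obtain ⟨τ₀⟩ : Nonempty (E →+* ℂ) := inferInstance
  choose n ρ hρ hρD using fun i => deligne_of_basic D h1 h2 h3 (hf i)
  choose n' ρ' hρ' hρD' using fun j => deligne_of_basic D h1 h2 h3 (hf' j)
  choose e he using hρD
  choose e' he' using hρD'
  choose L hL hLt using he
  choose L' hL' hLt' using he'
  -- the denominators
  have he0 : ∀ j, e' j ≠ 0 := by
    intro j h
    obtain ⟨τ, hτ⟩ := hne j
    have a1 := hL' j τ
    have a2 := hLt' j τ
    rw [h, map_zero, zero_mul] at a2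
    have a3 : (fun σ => τ (ρ' j σ).trace) = fun σ => τ (f' j σ) := funext fun σ => by rw [hρ' j]
    rw [a3] at a1
    exact hτ _ a1 a2
  -- the periods
  let a : Option J → ℕ := fun o => match o with
    | none => deg M
    | some j => n' j
  let r : ∀ o : Option J, D.G →* Matrix (Fin (a o)) (Fin (a o)) E := fun o => match o with
    | none => permRep M E
    | some j => ρ' j
  obtain ⟨u, hu0, hu⟩ := period_rel D (A := Option J) (B := I) r ρ (fun g => by
    rw [Fintype.sum_option]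
    change (permRep M E g).trace + ∑ j, (ρ' j g).trace = ∑ i, (ρ i g).trace
    rw [permRep_trace, Finset.sum_congr rfl fun j _ => (hρ' j g).symm,
      Finset.sum_congr rfl fun i _ => (hρ i g).symm, hid g])
  have hu' : ∀ τ : E →+* ℂ, D.period (bc τ (permRep M E)) * ∏ j, D.period (bc τ (ρ' j))
      = τ u * ∏ i, D.period (bc τ (ρ i)) := by
    intro τ
    rw [← hu τ, Fintype.prod_option]
  obtain ⟨q₀, hq₀, hq⟩ := period_perm M D
  set c : ℂ := q₀ * (Omega D M : ℂ) with hc
  have hc0 : c ≠ 0 := mul_ne_zero (by exact_mod_cast hq₀) (by exact_mod_cast omega_ne M D)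
  let w : E := (∏ i, e i) / (u * ∏ j, e' j)
  -- the L-function
  let ℓ : (E →+* ℂ) → ℂ → ℂ := fun τ z => ∏ x : I ⊕ J, (Sum.elim (fun i => L i τ) (fun j => L' j τ) x z)
    ^ (Sum.elim (fun _ => (1 : ℤ)) (fun _ => (-1 : ℤ)) x)
  have hℓ : ∀ τ, D.IsL (fun σ => (fix M σ : ℂ)) (ℓ τ) := by
    intro τ
    refine Data.IsL.prod (Finset.univ : Finset (I ⊕ J)) (Sum.elim (fun _ => (1 : ℤ)) (fun _ => (-1 : ℤ)))
      (Sum.elim (fun i σ => τ (ρ i σ).trace) (fun j σ => τ (ρ' j σ).trace))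
      (Sum.elim (fun i => L i τ) (fun j => L' j τ)) ?_ ?_
    · rintro (i | j) _
      · exact hL i τ
      · exact hL' j τ
    · intro g
      rw [Fintype.sum_sum_type]
      simp only [Sum.elim_inl, Sum.elim_inr, Int.cast_one, one_mul, Int.cast_neg, neg_mul,
        Finset.sum_neg_distrib]
      rw [← map_sum, ← map_sum, Finset.sum_congr rfl fun i _ => (hρ i g).symm,
        Finset.sum_congr rfl fun j _ => (hρ' j g).symm, ← hid g, map_add, map_natCast]
      ring
  have hlim : ∀ τ, Tendsto (ℓ τ) (𝓝[≠] 1) (𝓝 (τ w * c)) := by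
    intro τ
    have b1 : τ w * c = (∏ i, (τ (e i) * D.period (bc τ (ρ i)))) /
        ∏ j, (τ (e' j) * D.period (bc τ (ρ' j))) := by
      have b2 : ∏ j, D.period (bc τ (ρ' j)) ≠ 0 :=
        Finset.prod_ne_zero_iff.mpr fun j _ => D.period_ne _
      have b3 : ∏ j, τ (e' j) ≠ 0 :=
        Finset.prod_ne_zero_iff.mpr fun j _ => (map_ne_zero τ).mpr (he0 j)
      have b4 : τ u ≠ 0 := (map_ne_zero τ).mpr hu0
      have b5 : c = τ u * (∏ i, D.period (bc τ (ρ i))) / ∏ j, D.period (bc τ (ρ' j)) := by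
        rw [eq_div_iff b2, ← hu' τ, hq E τ]
      rw [Finset.prod_mul_distrib, Finset.prod_mul_distrib, b5]
      change τ ((∏ i, e i) / (u * ∏ j, e' j)) * _ = _
      rw [map_div₀, map_mul, map_prod, map_prod]
      field_simp
    rw [b1, div_eq_mul_inv, ← Finset.prod_inv_distrib]
    have b6 : (∏ i, (τ (e i) * D.period (bc τ (ρ i)))) *
        ∏ j, (τ (e' j) * D.period (bc τ (ρ' j)))⁻¹
        = ∏ x : I ⊕ J, (Sum.elim (fun i => τ (e i) * D.period (bc τ (ρ i)))
          (fun j => τ (e' j) * D.period (bc τ (ρ' j))) x) ^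
            (Sum.elim (fun _ => (1 : ℤ)) (fun _ => (-1 : ℤ)) x) := by
      rw [Fintype.prod_sum_type]
      simp only [Sum.elim_inl, Sum.elim_inr, zpow_one, zpow_neg]
    rw [b6]
    refine tendsto_finset_prod _ ?_
    rintro (i | j) _
    · simp only [Sum.elim_inl, zpow_one]
      exact hLt i τ
    · simp only [Sum.elim_inr]
      refine Tendsto.zpow₀ (hLt' j τ) _ (Or.inl ?_)
      exact mul_ne_zero ((map_ne_zero τ).mpr (he0 j)) (D.period_ne _)
  obtain ⟨q, hqw⟩ := mem_of_agree (E := ℚ) (E' := E) w fun τ τ' _ => by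
    have d1 := tendsto_nhds_unique ((hlim τ).congr' ((hℓ τ).unique (hℓ τ') 1)) (hlim τ')
    exact mul_right_cancel₀ hc0 d1
  refine ⟨q * q₀, ℓ τ₀, hℓ τ₀, ?_⟩
  have d2 : ((q * q₀ : ℚ) : ℂ) * (Omega D M : ℂ) = τ₀ w * c := by
    rw [← hqw, hc]
    push_cast
    rw [mul_assoc]
    congr 1
    rw [eq_ratCast (algebraMap ℚ E) q, map_ratCast]
  rw [d2]
  exact hlim τ₀

end Pool.Agent.U213.TP
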