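import Mathlib
import Pool.Agent.U213.TP.Main

/-!
# Quartic and quintic fields given by projective representations
-/

set_option autoImplicit false
set_option linter.unusedSectionVars false

open NumberField Filter Topology

namespace Pool.Agent.U213.TP

open Pool.Agent.U213.EC

section matrix

variable {E : Type} [Field E]

/-- scalar matrices -/
def IsScalar (A : Matrix (Fin 2) (Fin 2) E) : Prop := ∃ a : E, A = Matrix.scalar (Fin 2) a

lemma cayley (A : Matrix (Fin 2) (Fin 2) E) :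
    A * A = A.trace • A - A.det • (1 : Matrix (Fin 2) (Fin 2) E) := by
  ext i j
  fin_cases i <;> fin_cases j <;>
    simp [Matrix.mul_apply, Matrix.trace, Matrix.det_fin_two, Fin.sum_univ_two] <;> ring

/-- `u A + v` is scalar only if `u = 0` or `A` is scalar. -/
lemma scalar_lin {A : Matrix (Fin 2) (Fin 2) E} {u v : E}
    (h : IsScalar (u • A + v • (1 : Matrix (Fin 2) (Fin 2) E))) (hA : ¬ IsScalar A) : u = 0 := by
  by_contra hu
  obtain ⟨a, ha⟩ := h
  refine hA ⟨u⁻¹ * (a - v), ?_⟩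
  ext i j
  have h1 := congrFun (congrFun ha i) j
  rw [Matrix.add_apply, Matrix.smul_apply, Matrix.smul_apply, smul_eq_mul, smul_eq_mul,
    Matrix.scalar_apply, Matrix.diagonal_apply] at h1
  rw [Matrix.scalar_apply, Matrix.diagonal_apply]
  rw [Matrix.one_apply] at h1
  split_ifs with h2
  · rw [if_pos h2, if_pos h2] at h1
    field_simp
    linear_combination h1
  · rw [if_neg h2, if_neg h2] at h1
    have h3 : u * A i j = 0 := by linear_combination h1
    exact (mul_eq_zero.mp h3).resolve_left hu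

lemma pow_two' (A : Matrix (Fin 2) (Fin 2) E) : A ^ 2 = A.trace • A + (-A.det) • (1 : Matrix (Fin 2) (Fin 2) E) := by
  rw [pow_two, cayley]
  module

lemma pow_three' (A : Matrix (Fin 2) (Fin 2) E) :
    A ^ 3 = (A.trace ^ 2 - A.det) • A + (-(A.trace * A.det)) • (1 : Matrix (Fin 2) (Fin 2) E) := by
  rw [pow_succ, pow_two', add_mul, smul_mul_assoc, smul_mul_assoc, one_mul, cayley]
  module

lemma pow_four' (A : Matrix (Fin 2) (Fin 2) E) :
    A ^ 4 = (A.trace ^ 3 - 2 * A.trace * A.det) • A +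
      (-(A.det * (A.trace ^ 2 - A.det))) • (1 : Matrix (Fin 2) (Fin 2) E) := by
  rw [pow_succ, pow_three', add_mul, smul_mul_assoc, smul_mul_assoc, one_mul, cayley]
  module

lemma pow_five' (A : Matrix (Fin 2) (Fin 2) E) :
    A ^ 5 = (A.trace ^ 4 - 3 * A.trace ^ 2 * A.det + A.det ^ 2) • A +
      (-(A.det * (A.trace ^ 3 - 2 * A.trace * A.det))) • (1 : Matrix (Fin 2) (Fin 2) E) := by
  rw [pow_succ, pow_four', add_mul, smul_mul_assoc, smul_mul_assoc, one_mul, cayley]
  module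

lemma scalar_one {A : Matrix (Fin 2) (Fin 2) E} (h : IsScalar A) : A.trace ^ 2 = 4 * A.det := by
  obtain ⟨a, rfl⟩ := h
  rw [Matrix.scalar_apply, Matrix.trace_diagonal, Matrix.det_diagonal]
  simp
  ring

lemma scalar_two {A : Matrix (Fin 2) (Fin 2) E} (h : IsScalar (A ^ 2)) (hA : ¬ IsScalar A) :
    A.trace = 0 := by
  rw [pow_two'] at h
  exact scalar_lin h hA

lemma scalar_three {A : Matrix (Fin 2) (Fin 2) E} (h : IsScalar (A ^ 3)) (hA : ¬ IsScalar A) :
    A.trace ^ 2 = A.det := by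
  rw [pow_three'] at h
  exact sub_eq_zero.mp (scalar_lin h hA)

lemma scalar_four {A : Matrix (Fin 2) (Fin 2) E} (h : IsScalar (A ^ 4)) (hA : ¬ IsScalar (A ^ 2)) :
    A.trace ^ 2 = 2 * A.det := by
  have hA1 : ¬ IsScalar A := by
    rintro ⟨a, rfl⟩
    exact hA ⟨a ^ 2, by rw [← map_pow]⟩
  rw [pow_four'] at h
  have h1 := scalar_lin h hA1
  have h2 : A.trace * (A.trace ^ 2 - 2 * A.det) = 0 := by linear_combination h1
  rcases mul_eq_zero.mp h2 with h3 | h3
  · refine absurd ⟨-A.det, ?_⟩ hA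
    rw [pow_two', h3, zero_smul, zero_add]
    ext i j
    rw [Matrix.smul_apply, Matrix.one_apply, Matrix.scalar_apply, Matrix.diagonal_apply]
    split_ifs <;> simp
  · exact sub_eq_zero.mp h3

lemma scalar_five {A : Matrix (Fin 2) (Fin 2) E} (h : IsScalar (A ^ 5)) (hA : ¬ IsScalar A) :
    A.trace ^ 4 - 3 * A.trace ^ 2 * A.det + A.det ^ 2 = 0 := by
  rw [pow_five'] at h
  exact scalar_lin h hA

end matrix

section perm

set_option maxRecDepth 100000 in
lemma perm_four (s : Equiv.Perm (Fin 4)) :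
    (s = 1 ∧ Fintype.card {i // s i = i} = 4 ∧ Equiv.Perm.sign s = 1) ∨
    (s ≠ 1 ∧ s ^ 2 = 1 ∧ Fintype.card {i // s i = i} = 2 ∧ Equiv.Perm.sign s = -1) ∨
    (s ≠ 1 ∧ s ^ 2 = 1 ∧ Fintype.card {i // s i = i} = 0 ∧ Equiv.Perm.sign s = 1) ∨
    (s ≠ 1 ∧ s ^ 3 = 1 ∧ Fintype.card {i // s i = i} = 1 ∧ Equiv.Perm.sign s = 1) ∨
    (s ^ 2 ≠ 1 ∧ s ^ 4 = 1 ∧ Fintype.card {i // s i = i} = 0 ∧ Equiv.Perm.sign s = -1) := by
  revert s
  decide

set_option maxRecDepth 100000 in
lemma perm_five (s : Equiv.Perm (Fin 5)) (hs : Equiv.Perm.sign s = 1) :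
    (s = 1 ∧ Fintype.card {i // s i = i} = 5) ∨
    (s ≠ 1 ∧ s ^ 2 = 1 ∧ Fintype.card {i // s i = i} = 1) ∨
    (s ≠ 1 ∧ s ^ 3 = 1 ∧ Fintype.card {i // s i = i} = 2) ∨
    (s ≠ 1 ∧ s ^ 5 = 1 ∧ Fintype.card {i // s i = i} = 0) := by
  revert s
  decide

end perm

section fields

variable {F : Type} [Field F] [NumberField F] [IsGalois ℚ F] (M : IntermediateField ℚ F)
  (D : Data F)

lemma trivial_iff (σ : F ≃ₐ[ℚ] F) : Triv M σ ↔ (num M).permCongr (act M σ) = 1 := by
  rw [← Equiv.permCongrHom_coe, map_eq_one_iff _ (num M).permCongrHom.injective]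
  constructor
  · intro h
    ext φ x
    exact h φ x
  · intro h φ x
    rw [← act_apply, h]
    rfl

lemma trivial_pow (σ : F ≃ₐ[ℚ] F) (k : ℕ) :
    Triv M (σ ^ k) ↔ (num M).permCongr (act M σ) ^ k = 1 := by
  rw [trivial_iff]
  have h1 : act M (σ ^ k) = act M σ ^ k := (actHom M).map_pow σ k
  rw [h1, ← Equiv.permCongrHom_coe, map_pow]

lemma fix_eq (σ : F ≃ₐ[ℚ] F) :
    fix M σ = Nat.card {i // (num M).permCongr (act M σ) i = i} := by
  have h1 := permRep_trace M ℚ σ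
  rw [permRep_apply, pm_trace] at h1
  exact_mod_cast h1.symm

open Classical in
lemma sgn_eq (σ : F ≃ₐ[ℚ] F) :
    sgn M σ = (Equiv.Perm.sign ((num M).permCongr (act M σ)) : ℤ) := by
  rw [Equiv.Perm.sign_permCongr]
  rfl

include D in
lemma sgn_of_square (h : IsSquare (discr M)) (σ : F ≃ₐ[ℚ] F) : sgn M σ = 1 := by
  classical
  obtain ⟨r, hr⟩ := h
  have h1 : root M D ^ 2 = (r : F) ^ 2 := by
    apply D.ι.injective
    rw [map_pow, root_sq, map_pow, map_intCast, hr]
    push_cast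
    ring
  have h2 : σ (root M D) = root M D := by
    rcases sq_eq_sq_iff_eq_or_eq_neg.mp h1 with h3 | h3
    · rw [h3, map_intCast]
    · rw [h3, map_neg, map_intCast]
  rw [act_root] at h2
  have h3 : ((Equiv.Perm.sign (act M σ) : ℤ) : F) = 1 :=
    mul_right_cancel₀ (root_ne M D) (h2.trans (one_mul _).symm)
  have h4 : (Equiv.Perm.sign (act M σ) : ℤ) = 1 := by exact_mod_cast h3
  exact h4

/-- the sign as a linear character -/
noncomputable def sgnHom (E : Type) [Field E] : (F ≃ₐ[ℚ] F) →* Eˣ := by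
  classical
  exact (Units.map (Int.castRingHom E).toMonoidHom).comp (Equiv.Perm.sign.comp (actHom M))

lemma sgnHom_coe (E : Type) [Field E] (σ : F ≃ₐ[ℚ] F) : ((sgnHom M E σ : Eˣ) : E) = sgn M σ := by
  classical
  rw [sgn]
  rfl

lemma sgnHom_sq (E : Type) [Field E] (σ : F ≃ₐ[ℚ] F) : (sgn M σ : E) * (sgn M σ : E) = 1 := by
  classical
  rw [← Int.cast_mul, sgn, ← Units.val_mul, Int.units_mul_self]
  simp

/-- a linear character as a representation -/
noncomputable def lin {G : Type} [Group G] {E : Type} [Field E] (lam : G →* Eˣ) :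
    G →* Matrix (Fin 1) (Fin 1) E where
  toFun g := Matrix.scalar (Fin 1) ((lam g : Eˣ) : E)
  map_one' := by rw [map_one, Units.val_one, map_one]
  map_mul' a b := by rw [map_mul, Units.val_mul, map_mul]

lemma lin_trace {G : Type} [Group G] {E : Type} [Field E] (lam : G →* Eˣ) (g : G) :
    (lin lam g).trace = ((lam g : Eˣ) : E) := by
  change (Matrix.scalar (Fin 1) ((lam g : Eˣ) : E)).trace = _
  rw [Matrix.scalar_apply, Matrix.trace_diagonal]
  simp

lemma basic_lin {E : Type} [Field E] (lam : (F ≃ₐ[ℚ] F) →* Eˣ) :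
    Basic D (fun σ => ((lam σ : Eˣ) : E)) :=
  Or.inl ⟨lin lam, fun σ => (lin_trace lam σ).symm⟩

/-- twist by a linear character -/
noncomputable def tw {G : Type} [Group G] {E : Type} [Field E] (lam : G →* Eˣ)
    (ρ : G →* Matrix (Fin 2) (Fin 2) E) : G →* Matrix (Fin 2) (Fin 2) E where
  toFun g := ((lam g : Eˣ) : E) • ρ g
  map_one' := by rw [map_one, map_one, Units.val_one, one_smul]
  map_mul' a b := by
    rw [map_mul, map_mul, Units.val_mul, smul_mul_smul_comm]

lemma tw_apply {G : Type} [Group G] {E : Type} [Field E] (lam : G →* Eˣ)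
    (ρ : G →* Matrix (Fin 2) (Fin 2) E) (g : G) : tw lam ρ g = ((lam g : Eˣ) : E) • ρ g := rfl

lemma odd_tw {E : Type} [Field E] {ρ : (F ≃ₐ[ℚ] F) →* Matrix (Fin 2) (Fin 2) E} (h : OddRep D ρ)
    (lam : (F ≃ₐ[ℚ] F) →* Eˣ) (hc : ((lam D.c : Eˣ) : E) ^ 2 = 1) : OddRep D (tw lam ρ) where
  odd := by
    rw [tw_apply, Matrix.det_smul, Fintype.card_fin, hc, one_mul, h.odd]
  irr := by
    obtain ⟨σ, τ, hστ⟩ := h.irr
    refine ⟨σ, τ, fun h1 => hστ ?_⟩
    rw [tw_apply, tw_apply, smul_mul_smul_comm, smul_mul_smul_comm,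
      mul_comm ((lam τ : Eˣ) : E)] at h1
    exact smul_right_injective _ (mul_ne_zero (lam σ).ne_zero (lam τ).ne_zero) h1

/-- the identity of characters for quartic fields -/
lemma quartic_identity {E : Type} [Field E] [CharZero E] (hM : deg M = 4)
    (ρ : (F ≃ₐ[ℚ] F) →* Matrix (Fin 2) (Fin 2) E) (hρ : Cuts M ρ) (σ : F ≃ₐ[ℚ] F) :
    ((fix M σ : E) + sgn M σ) * (ρ σ).det = (ρ σ).det + sgn M σ * (ρ σ).trace ^ 2 := by
  classical
  have key : ∀ k : ℕ, IsScalar (ρ σ ^ k) ↔ (num M).permCongr (act M σ) ^ k = 1 := by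
    intro k
    rw [← trivial_pow, hρ (σ ^ k), map_pow]
    rfl
  have key1 : IsScalar (ρ σ) ↔ (num M).permCongr (act M σ) = 1 := by
    have := key 1
    rwa [pow_one, pow_one] at this
  rw [fix_eq, sgn_eq]
  generalize hs : (num M).permCongr (act M σ) = s at key key1 ⊢
  clear hs
  revert s
  rw [hM]
  intro s key key1
  rw [Nat.card_eq_fintype_card]
  rcases perm_four s with ⟨h1, h2, h3⟩ | ⟨h1, h0, h2, h3⟩ | ⟨h1, h0, h2, h3⟩ | ⟨h1, h0, h2, h3⟩ |
    ⟨h1, h0, h2, h3⟩
  · rw [h2, h3, scalar_one (key1.mpr h1)]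
    push_cast
    ring
  · rw [h2, h3, scalar_two ((key 2).mpr h0) (fun h => h1 (key1.mp h))]
    push_cast
    ring
  · rw [h2, h3, scalar_two ((key 2).mpr h0) (fun h => h1 (key1.mp h))]
    push_cast
    ring
  · rw [h2, h3, scalar_three ((key 3).mpr h0) (fun h => h1 (key1.mp h))]
    push_cast
    ring
  · rw [h2, h3, scalar_four ((key 4).mpr h0) (fun h => h1 ((key 2).mp h))]
    push_cast
    ring

/-- the trace and the determinant of the powers -/
lemma quintic_five {E : Type} [Field E] [CharZero E] {A B : Matrix (Fin 2) (Fin 2) E}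
    (hA : IsScalar (A ^ 5)) (hA' : ¬ IsScalar A) (hB : IsScalar (B ^ 5)) (hB' : ¬ IsScalar B)
    (hd : A.det * B.det = 1) (h5 : A ^ 5 * B ^ 5 = 1)
    (hne : A.trace ^ 2 * B.det ≠ B.trace ^ 2 * A.det) : A.trace * B.trace = -1 := by
  have h1 := scalar_five hA hA'
  have h2 := scalar_five hB hB'
  have h3 : A ^ 5 = (-(A.det * (A.trace ^ 3 - 2 * A.trace * A.det))) •
      (1 : Matrix (Fin 2) (Fin 2) E) := by
    rw [pow_five', h1, zero_smul, zero_add]
  have h4 : B ^ 5 = (-(B.det * (B.trace ^ 3 - 2 * B.trace * B.det))) •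
      (1 : Matrix (Fin 2) (Fin 2) E) := by
    rw [pow_five', h2, zero_smul, zero_add]
  rw [h3, h4, smul_mul_smul_comm, mul_one] at h5
  have h6 := congrFun (congrFun h5 0) 0
  rw [Matrix.smul_apply, Matrix.one_apply_eq, smul_eq_mul, mul_one] at h6
  -- `x = t² / d` and `x' = t'² / d'` are the two roots of `X² - 3 X + 1`
  set t := A.trace
  set d := A.det
  set t' := B.trace
  set d' := B.det
  have hd0 : d ≠ 0 := left_ne_zero_of_mul_eq_one hd
  have hd0' : d' ≠ 0 := right_ne_zero_of_mul_eq_one hd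
  have h7 : (t ^ 2 * d' - t' ^ 2 * d) * (t ^ 2 * d' + t' ^ 2 * d - 3 * (d * d')) = 0 := by
    linear_combination d' ^ 2 * h1 - d ^ 2 * h2
  have h8 : t ^ 2 * d' + t' ^ 2 * d = 3 := by
    rcases mul_eq_zero.mp h7 with h | h
    · exact absurd (sub_eq_zero.mp h) hne
    · linear_combination h + 3 * hd
  have h9 : t ^ 2 * t' ^ 2 = 1 := by
    -- `x x' = x (3 - x) = 1`
    have h10 : (t ^ 2 * d') * (3 - t ^ 2 * d') = 1 := by
      linear_combination (-d' ^ 2) * h1 + (-3 * t ^ 2 * d' + d * d' + 1) * hd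
    have h11 : t ^ 2 * t' ^ 2 = (t ^ 2 * d') * (t' ^ 2 * d) := by
      linear_combination (-(t ^ 2 * t' ^ 2)) * hd
    rw [h11, ← h10]
    linear_combination (t ^ 2 * d') * h8
  have h12 : -(t * t') = 1 := by
    have h13 : -(d * (t ^ 3 - 2 * t * d)) * -(d' * (t' ^ 3 - 2 * t' * d'))
        = (d * d') * (t * t') * (t ^ 2 * t' ^ 2 - 2 * (t ^ 2 * d' + t' ^ 2 * d) + 4 * (d * d')) := by
      ring
    rw [h13, hd, h9, h8] at h6
    linear_combination h6
  linear_combination -h12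

/-- the identity of characters for quintic fields -/
lemma quintic_identity {E : Type} [Field E] [CharZero E] (hM : deg M = 5)
    (hs1 : ∀ σ, sgn M σ = 1) (ρ ρ' : (F ≃ₐ[ℚ] F) →* Matrix (Fin 2) (Fin 2) E) (hρ : Cuts M ρ)
    (hρ' : Cuts M ρ') (hd : ∀ σ, (ρ σ).det * (ρ' σ).det = 1)
    (htr : ∀ σ, Triv M σ → ρ σ * ρ' σ = 1)
    (hne : ∀ σ, Triv M (σ ^ 5) → ¬ Triv M σ →
      (ρ σ).trace ^ 2 * (ρ' σ).det ≠ (ρ' σ).trace ^ 2 * (ρ σ).det) (σ : F ≃ₐ[ℚ] F) :
    (fix M σ : E) = 1 + (ρ σ).trace * (ρ' σ).trace := by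
  classical
  have htk := trivial_pow M σ
  have ht1 := trivial_iff M σ
  have key : ∀ k : ℕ, IsScalar (ρ σ ^ k) ↔ (num M).permCongr (act M σ) ^ k = 1 := by
    intro k
    rw [← trivial_pow, hρ (σ ^ k), map_pow]
    rfl
  have key1 : IsScalar (ρ σ) ↔ (num M).permCongr (act M σ) = 1 := by
    have := key 1
    rwa [pow_one, pow_one] at this
  have key' : ∀ k : ℕ, IsScalar (ρ' σ ^ k) ↔ (num M).permCongr (act M σ) ^ k = 1 := by
    intro k
    rw [← trivial_pow, hρ' (σ ^ k), map_pow]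
    rfl
  have key1' : IsScalar (ρ' σ) ↔ (num M).permCongr (act M σ) = 1 := by
    have := key' 1
    rwa [pow_one, pow_one] at this
  have hsg := sgn_eq M σ
  rw [hs1 σ] at hsg
  rw [fix_eq]
  have hprod : ∀ k : ℕ, (num M).permCongr (act M σ) ^ k = 1 → ρ σ ^ k * ρ' σ ^ k = 1 := by
    intro k hk
    rw [← map_pow, ← map_pow]
    exact htr _ ((htk k).mpr hk)
  have hne' := hne σ
  rw [htk 5, ht1] at hne'
  generalize hs : (num M).permCongr (act M σ) = s at key key1 key' key1' hsg hprod hne' ⊢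
  clear hs ht1 htk
  revert s
  rw [hM]
  intro s key key1 key' key1' hsg hprod hne'
  rw [Nat.card_eq_fintype_card]
  have hsg' : Equiv.Perm.sign s = 1 := by
    have h1 : ((Equiv.Perm.sign s : ℤˣ) : ℤ) = 1 := hsg.symm
    exact Units.ext h1
  rcases perm_five s hsg' with ⟨h1, h2⟩ | ⟨h1, h0, h2⟩ | ⟨h1, h0, h2⟩ | ⟨h1, h0, h2⟩
  · -- the identity
    have h3 := hprod 1 (by rw [pow_one]; exact h1)
    rw [pow_one, pow_one] at h3
    obtain ⟨a, ha⟩ := key1.mpr h1
    obtain ⟨b, hb⟩ := key1'.mpr h1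
    rw [ha, hb, ← map_mul] at h3
    have h4 := congrFun (congrFun h3 0) 0
    rw [Matrix.scalar_apply, Matrix.diagonal_apply_eq, Matrix.one_apply_eq] at h4
    rw [h2, ha, hb, Matrix.scalar_apply, Matrix.scalar_apply, Matrix.trace_diagonal,
      Matrix.trace_diagonal]
    simp only [Finset.sum_const, Finset.card_univ, Fintype.card_fin, nsmul_eq_mul]
    push_cast
    linear_combination (-4) * h4
  · rw [h2, scalar_two ((key 2).mpr h0) (fun h => h1 (key1.mp h))]
    push_cast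
    ring
  · have h3 := scalar_three ((key 3).mpr h0) (fun h => h1 (key1.mp h))
    have h3' := scalar_three ((key' 3).mpr h0) (fun h => h1 (key1'.mp h))
    have h4 := hprod 3 h0
    rw [pow_three', pow_three', h3, h3', sub_self, sub_self, zero_smul, zero_smul, zero_add,
      zero_add, smul_mul_smul_comm, mul_one] at h4
    have h6 := congrFun (congrFun h4 0) 0
    rw [Matrix.smul_apply, Matrix.one_apply_eq, smul_eq_mul, mul_one] at h6
    have h7 := hd σ
    have h8 : (ρ σ).trace * (ρ' σ).trace = 1 := by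
      linear_combination h6 - (ρ σ).trace * (ρ' σ).trace * h7
    rw [h2, h8]
    norm_num
  · have h3 := quintic_five ((key 5).mpr h0) (fun h => h1 (key1.mp h)) ((key' 5).mpr h0)
      (fun h => h1 (key1'.mp h)) (hd σ) (hprod 5 h0) (hne' h0 h1)
    rw [h2, h3]
    norm_num

/-- **Quartic fields.** -/
theorem quartic (h1 : LinearTwists) (h2 : RankinProducts) (h3 : TripleProducts) {E : Type}
    [Field E] [NumberField E] (hM : Module.finrank ℚ M = 4)
    (ρ : (F ≃ₐ[ℚ] F) →* Matrix (Fin 2) (Fin 2) E) (hρ : OddRep D ρ) (hc : Cuts M ρ)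
    (hs : IsSquare (discr M) ∨ NonzeroAtOne D (fun σ => (sgn M σ : ℂ))) : Rational D M := by
  have hdeg : deg M = 4 := by rw [deg_eq M D, hM]
  have hid := quartic_identity M hdeg ρ hc
  have hdet : ∀ σ, (ρ σ).det ≠ 0 := by
    intro σ h
    have h4 : (ρ σ).det * (ρ σ⁻¹).det = 1 := by
      rw [← Matrix.det_mul, ← map_mul, mul_inv_cancel, map_one, Matrix.det_one]
    rw [h, zero_mul] at h4
    exact zero_ne_one h4
  let δ : (F ≃ₐ[ℚ] F) →* Eˣ := (Matrix.detMonoidHom.comp ρ).toHomUnits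
  have hδ : ∀ σ, ((δ σ : Eˣ) : E) = (ρ σ).det := fun σ => rfl
  let lam : (F ≃ₐ[ℚ] F) →* Eˣ := sgnHom M E * δ⁻¹
  have hlam : ∀ σ, ((lam σ : Eˣ) : E) = sgn M σ * ((ρ σ).det)⁻¹ := by
    intro σ
    change (((sgnHom M E * δ⁻¹) σ : Eˣ) : E) = _
    rw [MonoidHom.mul_apply, MonoidHom.inv_apply, Units.val_mul, Units.val_inv_eq_inv_val,
      sgnHom_coe, hδ]
  have hodd : OddRep D (tw lam ρ) := by
    refine odd_tw D hρ lam ?_
    rw [hlam, hρ.odd, mul_pow, pow_two, sgnHom_sq]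
    norm_num
  have hb : Basic D (fun σ => (ρ σ).trace * (tw lam ρ σ).trace) := by
    refine Or.inr (Or.inr ⟨ρ, tw lam ρ, hρ, hodd, fun σ => ?_, fun σ => rfl⟩)
    rw [tw_apply, Matrix.det_smul, Fintype.card_fin, hlam, mul_pow, pow_two (sgn M σ : E),
      sgnHom_sq, one_mul]
    field_simp [hdet σ]
  have htr : ∀ σ, (ρ σ).trace * (tw lam ρ σ).trace = fix M σ + sgn M σ - 1 := by
    intro σ
    rw [tw_apply, Matrix.trace_smul, smul_eq_mul, hlam]
    have h4 := hid σ
    have h5 := hdet σ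
    field_simp
    linear_combination -h4
  have hone : Basic D (fun _ : F ≃ₐ[ℚ] F => (1 : E)) := basic_lin D (1 : (F ≃ₐ[ℚ] F) →* Eˣ)
  rcases hs with hs | hs
  · have h6 := sgn_of_square M D hs
    refine main D h1 h2 h3 M (I := Unit) (J := Empty) (fun _ σ => (ρ σ).trace * (tw lam ρ σ).trace)
      (fun j => j.elim) (fun _ => hb) (fun j => j.elim) (fun j => j.elim) fun σ => ?_
    simp only [Finset.univ_eq_empty, Finset.sum_empty, add_zero, Finset.univ_unique,
      Finset.sum_const, Finset.card_singleton, one_smul]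
    rw [htr, h6]
    push_cast
    ring
  · obtain ⟨τ₀⟩ : Nonempty (E →+* ℂ) := inferInstance
    have hsgn : Basic D (fun σ => (sgn M σ : E)) := by
      have := basic_lin D (sgnHom M E)
      simpa only [sgnHom_coe] using this
    refine main D h1 h2 h3 M (I := Bool) (J := Unit)
      (fun b σ => cond b ((ρ σ).trace * (tw lam ρ σ).trace) 1) (fun _ σ => (sgn M σ : E))
      (fun b => by cases b <;> assumption) (fun _ => hsgn) (fun _ => ⟨τ₀, ?_⟩) fun σ => ?_
    · simpa only [map_intCast] using hs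
    · simp only [Finset.univ_unique, Finset.sum_const, Finset.card_singleton, one_smul,
        Fintype.sum_bool, cond_true, cond_false]
      rw [htr]
      ring

/-- **Quintic fields.** -/
theorem quintic (h1 : LinearTwists) (h2 : RankinProducts) (h3 : TripleProducts) {E : Type}
    [Field E] [NumberField E] (hM : Module.finrank ℚ M = 5) (hsq : IsSquare (discr M))
    (ρ ρ' : (F ≃ₐ[ℚ] F) →* Matrix (Fin 2) (Fin 2) E) (hρ : OddRep D ρ) (hρ' : OddRep D ρ')
    (hc : Cuts M ρ) (hc' : Cuts M ρ') (hd : ∀ σ, (ρ σ).det * (ρ' σ).det = 1)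
    (htr : ∀ σ, Triv M σ → ρ σ * ρ' σ = 1)
    (hne : ∀ σ, Triv M (σ ^ 5) → ¬ Triv M σ →
      (ρ σ).trace ^ 2 * (ρ' σ).det ≠ (ρ' σ).trace ^ 2 * (ρ σ).det) : Rational D M := by
  have hdeg : deg M = 5 := by rw [deg_eq M D, hM]
  have hid := quintic_identity M hdeg (sgn_of_square M D hsq) ρ ρ' hc hc' hd htr hne
  have hone : Basic D (fun _ : F ≃ₐ[ℚ] F => (1 : E)) := basic_lin D (1 : (F ≃ₐ[ℚ] F) →* Eˣ)
  have hb : Basic D (fun σ => (ρ σ).trace * (ρ' σ).trace) :=
    Or.inr (Or.inr ⟨ρ, ρ', hρ, hρ', hd, fun σ => rfl⟩)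
  refine main D h1 h2 h3 M (I := Bool) (J := Empty)
    (fun b σ => cond b ((ρ σ).trace * (ρ' σ).trace) 1) (fun j => j.elim)
    (fun b => by cases b <;> assumption) (fun j => j.elim) (fun j => j.elim) fun σ => ?_
  simp only [Finset.univ_eq_empty, Finset.sum_empty, add_zero, Fintype.sum_bool, cond_true,
    cond_false]
  rw [hid]
  ring

end fields

end Pool.Agent.U213.TP
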