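import Mathlib
import Pool.Agent.U213.EC.Twist
import Pool.Agent.U213.EC.Gauss
import Pool.Agent.U213.TP.Quad

/-!
# Deligne's conjecture for combinations of the basic characters, and the form with Gauss sums
-/

set_option autoImplicit false
set_option linter.unusedSectionVars false

open NumberField Filter Topology

namespace Pool.Agent.U213.TP

open Pool.Agent.U213.EC

variable {F : Type} [Field F] [NumberField F] [IsGalois ℚ F] (D : Data F)

/-- **Deligne's conjecture for combinations of basic characters.** -/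
theorem deligne_comb (h1 : LinearTwists) (h2 : RankinProducts) (h3 : TripleProducts) {E : Type}
    [Field E] [NumberField E] {m : ℕ} (V : (F ≃ₐ[ℚ] F) →* Matrix (Fin m) (Fin m) E) {I J : Type}
    [Fintype I] [Fintype J] (f : I → (F ≃ₐ[ℚ] F) → E) (f' : J → (F ≃ₐ[ℚ] F) → E)
    (hf : ∀ i, Basic D (f i)) (hf' : ∀ j, Basic D (f' j))
    (hne : ∀ j, ∃ τ : E →+* ℂ, NonzeroAtOne D (fun σ => τ (f' j σ)))
    (hid : ∀ σ, (V σ).trace + ∑ j, f' j σ = ∑ i, f i σ) : D.Deligne V := by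
  classical
  choose n ρ hρ hρD using fun i => deligne_of_basic D h1 h2 h3 (hf i)
  choose n' ρ' hρ' hρD' using fun j => deligne_of_basic D h1 h2 h3 (hf' j)
  choose e he using hρD
  choose e' he' using hρD'
  choose L hL hLt using he
  choose L' hL' hLt' using he'
  -- the denominators
  have he0 : ∀ j, e' j ≠ 0 := by
    intro j h
    obtain ⟨τ, hτ⟩ := hne j
    have a1 := hL' j τ
    have a2 := hLt' j τ
    rw [h, map_zero, zero_mul] at a2
    have a3 : (fun σ => τ (ρ' j σ).trace) = fun σ => τ (f' j σ) := funext fun σ => by rw [hρ' j]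
    rw [a3] at a1
    exact hτ _ a1 a2
  -- the periods
  let a : Option J → ℕ := fun o => match o with
    | none => m
    | some j => n' j
  let r : ∀ o : Option J, D.G →* Matrix (Fin (a o)) (Fin (a o)) E := fun o => match o with
    | none => V
    | some j => ρ' j
  obtain ⟨u, hu0, hu⟩ := period_rel D (A := Option J) (B := I) r ρ (fun g => by
    rw [Fintype.sum_option]
    change (V g).trace + ∑ j, (ρ' j g).trace = ∑ i, (ρ i g).trace
    rw [Finset.sum_congr rfl fun j _ => (hρ' j g).symm,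
      Finset.sum_congr rfl fun i _ => (hρ i g).symm, hid g])
  have hu' : ∀ τ : E →+* ℂ, D.period (bc τ V) * ∏ j, D.period (bc τ (ρ' j))
      = τ u * ∏ i, D.period (bc τ (ρ i)) := by
    intro τ
    rw [← hu τ, Fintype.prod_option]
  let w : E := (∏ i, e i) / (u * ∏ j, e' j)
  -- the L-function
  let ℓ : (E →+* ℂ) → ℂ → ℂ := fun τ z => ∏ x : I ⊕ J, (Sum.elim (fun i => L i τ) (fun j => L' j τ) x z)
    ^ (Sum.elim (fun _ => (1 : ℤ)) (fun _ => (-1 : ℤ)) x)
  refine ⟨w, fun τ => ⟨ℓ τ, ?_, ?_⟩⟩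
  · refine Data.IsL.prod (Finset.univ : Finset (I ⊕ J)) (Sum.elim (fun _ => (1 : ℤ)) (fun _ => (-1 : ℤ)))
      (Sum.elim (fun i σ => τ (ρ i σ).trace) (fun j σ => τ (ρ' j σ).trace))
      (Sum.elim (fun i => L i τ) (fun j => L' j τ)) ?_ ?_
    · rintro (i | j) _
      · exact hL i τ
      · exact hL' j τ
    · intro g
      rw [Fintype.sum_sum_type]
      simp only [Sum.elim_inl, Sum.elim_inr, Int.cast_one, one_mul, Int.cast_neg, neg_mul,
        Finset.sum_neg_distrib]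
      rw [← map_sum, ← map_sum, Finset.sum_congr rfl fun i _ => (hρ i g).symm,
        Finset.sum_congr rfl fun j _ => (hρ' j g).symm, ← hid g, map_add]
      ring
  · have b1 : τ w * D.period (bc τ V) = (∏ i, (τ (e i) * D.period (bc τ (ρ i)))) /
        ∏ j, (τ (e' j) * D.period (bc τ (ρ' j))) := by
      have b2 : ∏ j, D.period (bc τ (ρ' j)) ≠ 0 :=
        Finset.prod_ne_zero_iff.mpr fun j _ => D.period_ne _
      have b3 : ∏ j, τ (e' j) ≠ 0 :=
        Finset.prod_ne_zero_iff.mpr fun j _ => (map_ne_zero τ).mpr (he0 j)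
      have b4 : τ u ≠ 0 := (map_ne_zero τ).mpr hu0
      have b5 : D.period (bc τ V)
          = τ u * (∏ i, D.period (bc τ (ρ i))) / ∏ j, D.period (bc τ (ρ' j)) := by
        rw [eq_div_iff b2, ← hu' τ]
      rw [Finset.prod_mul_distrib, Finset.prod_mul_distrib, b5]
      change τ ((∏ i, e i) / (u * ∏ j, e' j)) * _ = _
      rw [map_div₀, map_mul, map_prod, map_prod]
      field_simp
    change Tendsto (ℓ τ) (𝓝[≠] 1) (𝓝 (τ w * D.period (bc τ V)))
    rw [b1, div_eq_mul_inv, ← Finset.prod_inv_distrib]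
    have b6 : (∏ i, (τ (e i) * D.period (bc τ (ρ i)))) *
        ∏ j, (τ (e' j) * D.period (bc τ (ρ' j)))⁻¹
        = ∏ x : I ⊕ J, (Sum.elim (fun i => τ (e i) * D.period (bc τ (ρ i)))
          (fun j => τ (e' j) * D.period (bc τ (ρ' j))) x) ^
            (Sum.elim (fun _ => (1 : ℤ)) (fun _ => (-1 : ℤ)) x) := by
      rw [Fintype.prod_sum_type]
      simp only [Sum.elim_inl, Sum.elim_inr, zpow_one, zpow_neg]
    rw [b6]
    refine tendsto_finset_prod _ ?_
    rintro (i | j) _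
    · simp only [Sum.elim_inl, zpow_one]
      exact hLt i τ
    · simp only [Sum.elim_inr]
      refine Tendsto.zpow₀ (hLt' j τ) _ (Or.inl ?_)
      exact mul_ne_zero ((map_ne_zero τ).mpr (he0 j)) (D.period_ne _)

/-- From Deligne's conjecture for `σ ⊗ ψ` to the form with the resolvent of `ψ`. -/
theorem twist_form {m : ℕ} (σ : D.G →* Matrix (Fin m) (Fin m) ℚ)
    {E : Type} [Field E] [NumberField E] (ψ : D.G →* Eˣ) (hc : ψ D.c = 1)
    (hD : D.Deligne (EC.tw σ ψ)) :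
    ∃ e : E, ∀ τ : E →+* ℂ, ∃ ℓ : ℂ → ℂ,
      D.IsL (fun g => τ ((ψ g : Eˣ) : E) * (((σ g).trace : ℚ) : ℂ)) ℓ ∧
      Tendsto ℓ (𝓝[≠] 1) (𝓝 (τ e * (D.R (fun g => τ ((ψ g : Eˣ) : E)) ^ m *
        D.period ((algebraMap ℚ ℂ).mapMatrix.toMonoidHom.comp σ)))) := by
  classical
  obtain ⟨e, he⟩ := hD
  -- the resolvents
  let dσ : D.G →* Eˣ := (Matrix.detMonoidHom.comp
    ((algebraMap ℚ E).mapMatrix.toMonoidHom.comp σ)).toHomUnits
  have hdσ : ∀ g, ((dσ g : Eˣ) : E) = algebraMap ℚ E (σ g).det := by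
    intro g
    change ((σ g).map (algebraMap ℚ E)).det = _
    exact (RingHom.map_det (algebraMap ℚ E) (σ g)).symm
  let δ : D.G →* Eˣ := ψ ^ m * dσ
  have hx : ∀ mu : (F ≃ₐ[ℚ] F) →* ℂˣ, ∑ σ, (mu σ : ℂ) * D.ι (σ D.x) ≠ 0 := by
    intro mu
    have := D.x_ne mu
    rwa [finsum_eq_sum_of_fintype] at this
  obtain ⟨u, hu0, hu⟩ := prod_res D.ι D.x hx (Finset.univ : Finset Bool)
    (fun i => cond i ψ dσ) (fun i => cond i m 1) δ (fun g => by
      rw [Fintype.prod_bool]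
      change ψ g ^ m * dσ g ^ 1 = (ψ ^ m * dσ) g
      rw [pow_one, MonoidHom.mul_apply, MonoidHom.pow_apply])
  refine ⟨e / u, fun τ => ?_⟩
  obtain ⟨ℓ, h1, h3⟩ := he τ
  refine ⟨ℓ, ?_, ?_⟩
  · have h4 : (fun g => τ (EC.tw σ ψ g).trace)
        = fun g => τ ((ψ g : Eˣ) : E) * (((σ g).trace : ℚ) : ℂ) := by
      funext g
      rw [tw_trace, map_mul]
      congr 1
      simp
    rwa [h4] at h1
  · have h4 : τ e * D.period (τ.mapMatrix.toMonoidHom.comp (EC.tw σ ψ))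
        = τ (e / u) * (D.R (fun g => τ ((ψ g : Eˣ) : E)) ^ m *
          D.period ((algebraMap ℚ ℂ).mapMatrix.toMonoidHom.comp σ)) := by
      have h5 := hu τ
      rw [Fintype.prod_bool] at h5
      change (∑ σ, τ ((ψ σ : Eˣ) : E) * D.ι (σ D.x)) ^ m *
        (∑ σ, τ ((dσ σ : Eˣ) : E) * D.ι (σ D.x)) ^ 1
        = τ u * ∑ σ, τ ((δ σ : Eˣ) : E) * D.ι (σ D.x) at h5
      have h6 : D.R (fun g => ((τ.mapMatrix.toMonoidHom.comp (EC.tw σ ψ)) g).det)
          = ∑ g, τ ((δ g : Eˣ) : E) * D.ι (g D.x) := by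
        rw [Data.R_eq]
        refine Finset.sum_congr rfl fun g _ => ?_
        congr 1
        change (bc τ (EC.tw σ ψ) g).det = _
        rw [bc_det, tw_det]
        congr 1
        change _ = (((ψ ^ m * dσ) g : Eˣ) : E)
        rw [MonoidHom.mul_apply, MonoidHom.pow_apply, Units.val_mul, Units.val_pow_eq_pow_val, hdσ]
      have h7 : D.R (fun g => (((algebraMap ℚ ℂ).mapMatrix.toMonoidHom.comp σ) g).det)
          = ∑ g, τ ((dσ g : Eˣ) : E) * D.ι (g D.x) := by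
        rw [Data.R_eq]
        refine Finset.sum_congr rfl fun g _ => ?_
        congr 1
        change (bc (algebraMap ℚ ℂ) σ g).det = _
        rw [bc_det, hdσ]
        simp
      have h8 : (τ.mapMatrix.toMonoidHom.comp (EC.tw σ ψ)) D.c
          = ((algebraMap ℚ ℂ).mapMatrix.toMonoidHom.comp σ) D.c := by
        ext i j
        change τ (((ψ D.c : Eˣ) : E) * algebraMap ℚ E (σ D.c i j)) = algebraMap ℚ ℂ (σ D.c i j)
        rw [hc, Units.val_one, one_mul]
        simp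
      rw [Data.period, Data.period, h6, h7, h8, map_div₀, Data.R_eq]
      have hu' : τ u ≠ 0 := (map_ne_zero τ).mpr hu0
      rw [pow_one] at h5
      rw [div_mul_eq_mul_div, eq_div_iff hu']
      linear_combination (-(τ e * D.Ωp ^ Polynomial.rootMultiplicity 1
        (((algebraMap ℚ ℂ).mapMatrix.toMonoidHom.comp σ) D.c).charpoly *
        D.Ωm ^ Polynomial.rootMultiplicity (-1)
        (((algebraMap ℚ ℂ).mapMatrix.toMonoidHom.comp σ) D.c).charpoly)) * h5
    rw [h4] at h3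
    exact h3

/-- The form with Gauss sums. -/
theorem gauss_form {m : ℕ} (σ : D.G →* Matrix (Fin m) (Fin m) ℚ)
    {f : ℕ} (hf : f ≠ 0) {ζ : F} (hζ : D.ι ζ = Complex.exp (2 * Real.pi * Complex.I / f))
    (E : Type) [Field E] [NumberField E] (χ : (ZMod f)ˣ →* Eˣ) (ψ : D.G →* Eˣ)
    (h : ∀ (g : D.G) (u : (ZMod f)ˣ), g ζ = ζ ^ (u : ZMod f).val → ψ g = χ u) (hc : ψ D.c = 1)
    (hD : D.Deligne (EC.tw σ ψ)) :
    ∃ e : E, ∀ τ : E →+* ℂ, ∃ ℓ : ℂ → ℂ,
      D.IsL (fun g => τ ((ψ g : Eˣ) : E) * (((σ g).trace : ℚ) : ℂ)) ℓ ∧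
      Tendsto (fun s => gaussSum' f (fun a => τ (((χ a)⁻¹ : Eˣ) : E)) ^ m * ℓ s /
        D.period ((algebraMap ℚ ℂ).mapMatrix.toMonoidHom.comp σ)) (𝓝[≠] 1) (𝓝 (τ e)) := by
  obtain ⟨e, he⟩ := twist_form D σ ψ hc hD
  obtain ⟨N, hN, hg⟩ := D.gauss_eq hf hζ χ ψ h
  refine ⟨e * (∑ k : D.G, ((ψ k : Eˣ) : E) *
    algebraMap ℚ E (Algebra.trace ℚ F (D.x * k⁻¹ ζ))) ^ m / N ^ m, fun τ => ?_⟩
  obtain ⟨ℓ, h1, h3⟩ := he τ
  refine ⟨ℓ, h1, ?_⟩
  have h4 := (h3.const_mul ((∑ᶠ g : D.G, τ (((ψ g)⁻¹ : Eˣ) : E) * D.ι (g ζ)) ^ m)).div_const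
    (D.period ((algebraMap ℚ ℂ).mapMatrix.toMonoidHom.comp σ))
  have h5 : (∑ᶠ g : D.G, τ (((ψ g)⁻¹ : Eˣ) : E) * D.ι (g ζ)) ^ m *
      (τ e * (D.R (fun g => τ ((ψ g : Eˣ) : E)) ^ m *
        D.period ((algebraMap ℚ ℂ).mapMatrix.toMonoidHom.comp σ))) /
        D.period ((algebraMap ℚ ℂ).mapMatrix.toMonoidHom.comp σ)
      = τ (e * (∑ k : D.G, ((ψ k : Eˣ) : E) *
        algebraMap ℚ E (Algebra.trace ℚ F (D.x * k⁻¹ ζ))) ^ m) := by
    rw [map_mul, map_pow, ← Data.res_mul_gauss D ζ ψ τ, finsum_eq_sum_of_fintype, mul_pow,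
      ← mul_assoc, ← mul_assoc, mul_div_assoc,
      div_self (D.period_ne ((algebraMap ℚ ℂ).mapMatrix.toMonoidHom.comp σ))]
    ring
  rw [h5] at h4
  have h6 := h4.div_const ((N : ℂ) ^ m)
  have hN' : (N : ℂ) ^ m ≠ 0 := pow_ne_zero _ (Nat.cast_ne_zero.mpr hN)
  rw [map_div₀, map_pow, map_natCast]
  refine h6.congr fun s => ?_
  rw [hg τ, mul_pow, div_div, mul_comm (D.period _), ← div_div]
  congr 1
  rw [mul_assoc, mul_div_assoc, mul_comm, div_mul_cancel₀ _ hN']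

end Pool.Agent.U213.TP
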