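import Mathlib
import Pool.Agent.U213.TP.Gen

/-!
# Cubic fields which are not totally real
-/

set_option autoImplicit false
set_option linter.unusedSectionVars false

open NumberField Filter Topology

namespace Pool.Agent.U213.TP

open Pool.Agent.U213.EC

section std

/-- the standard representation of the symmetric group of degree three, over the integers -/
def stdZ (s : Equiv.Perm (Fin 3)) : Matrix (Fin 2) (Fin 2) ℤ :=
  Matrix.of fun i j => (if Fin.castSucc i = s (Fin.castSucc j) then 1 else 0)
    - (if Fin.castSucc i = s 2 then 1 else 0)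

lemma stdZ_one : stdZ 1 = 1 := by decide

set_option maxRecDepth 100000 in
lemma stdZ_mul (s t : Equiv.Perm (Fin 3)) : stdZ (s * t) = stdZ s * stdZ t := by
  revert s t
  decide

lemma stdZ_trace (s : Equiv.Perm (Fin 3)) :
    (stdZ s).trace = (Fintype.card {i // s i = i} : ℤ) - 1 := by
  revert s
  decide

lemma stdZ_det (s : Equiv.Perm (Fin 3)) : (stdZ s).det = (Equiv.Perm.sign s : ℤ) := by
  revert s
  decide

/-- the standard representation over a field -/
noncomputable def stdE (E : Type) [Field E] : Equiv.Perm (Fin 3) →* Matrix (Fin 2) (Fin 2) E where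
  toFun s := (stdZ s).map (Int.castRingHom E)
  map_one' := by
    rw [stdZ_one]
    simp
  map_mul' s t := by
    rw [stdZ_mul, Matrix.map_mul]

lemma stdE_trace (E : Type) [Field E] (s : Equiv.Perm (Fin 3)) :
    (stdE E s).trace = (Fintype.card {i // s i = i} : E) - 1 := by
  have h1 : (stdE E s).trace = (((stdZ s).trace : ℤ) : E) := by
    change ((stdZ s).map (Int.castRingHom E)).trace = _
    rw [Matrix.trace, Matrix.trace, Int.cast_sum]
    rfl
  rw [h1, stdZ_trace]
  push_cast
  ring

lemma stdE_det (E : Type) [Field E] (s : Equiv.Perm (Fin 3)) :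
    (stdE E s).det = ((Equiv.Perm.sign s : ℤ) : E) := by
  have h1 : (stdE E s).det = (((stdZ s).det : ℤ) : E) := by
    change ((stdZ s).map (Int.castRingHom E)).det = _
    exact ((Int.castRingHom E).map_det (stdZ s)).symm
  rw [h1, stdZ_det]

lemma stdZ_comm (s t : Equiv.Perm (Fin 3)) (h : stdZ s * stdZ t = stdZ t * stdZ s) :
    s * t = t * s := by
  revert s t
  decide

end std

variable {F : Type} [Field F] [NumberField F] [IsGalois ℚ F] (M : IntermediateField ℚ F)
  (D : Data F)

/-- the two-dimensional representation of a cubic field -/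
noncomputable def cubRep (E : Type) [Field E] (hM : deg M = 3) :
    (F ≃ₐ[ℚ] F) →* Matrix (Fin 2) (Fin 2) E :=
  (stdE E).comp (((((num M).trans (finCongr hM)).permCongrHom).toMonoidHom).comp (actHom M))

lemma cubRep_apply (E : Type) [Field E] (hM : deg M = 3) (σ : F ≃ₐ[ℚ] F) :
    cubRep M E hM σ = stdE E (((num M).trans (finCongr hM)).permCongr (act M σ)) := rfl

lemma cubRep_trace (E : Type) [Field E] (hM : deg M = 3) (σ : F ≃ₐ[ℚ] F) :
    (cubRep M E hM σ).trace = (fix M σ : E) - 1 := by
  rw [cubRep_apply, stdE_trace, ← Nat.card_eq_fintype_card]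
  congr 2
  rw [fix]
  refine Nat.card_congr ⟨fun i => ⟨((num M).trans (finCongr hM)).symm i.1, ?_⟩,
    fun φ => ⟨((num M).trans (finCongr hM)) φ.1, ?_⟩, ?_, ?_⟩
  · intro x
    have h1 := i.2
    rw [Equiv.permCongr_apply] at h1
    have h2 : act M σ (((num M).trans (finCongr hM)).symm i.1)
        = ((num M).trans (finCongr hM)).symm i.1 :=
      ((num M).trans (finCongr hM)).injective (by rw [h1, Equiv.apply_symm_apply])
    rw [← act_apply, h2]
  · rw [Equiv.permCongr_apply, Equiv.symm_apply_apply]
    congr 1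
    ext x
    exact φ.2 x
  · intro i
    exact Subtype.ext (((num M).trans (finCongr hM)).apply_symm_apply i.1)
  · intro φ
    exact Subtype.ext (((num M).trans (finCongr hM)).symm_apply_apply φ.1)

lemma cubRep_det (E : Type) [Field E] (hM : deg M = 3) (σ : F ≃ₐ[ℚ] F) :
    (cubRep M E hM σ).det = (sgn M σ : E) := by
  classical
  rw [cubRep_apply, stdE_det, Equiv.Perm.sign_permCongr]
  rfl

/-- the inclusion -/
noncomputable def incl : M →ₐ[ℚ] F := (algebraMap M F).toRatAlgHom

/-- every embedding extends to an automorphism -/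
lemma exists_ext (φ : M →ₐ[ℚ] F) : ∃ σ : F ≃ₐ[ℚ] F, act M σ (incl M) = φ := by
  refine ⟨AlgEquiv.ofBijective (φ.liftNormal F) (AlgHom.normal_bijective ℚ F F _), ?_⟩
  ext x
  rw [act_apply]
  exact (φ.liftNormal_commutes F x)

/-- the action on the embeddings is transitive -/
lemma act_trans (φ ψ : M →ₐ[ℚ] F) : ∃ σ : F ≃ₐ[ℚ] F, act M σ φ = ψ := by
  obtain ⟨a, rfl⟩ := exists_ext M φ
  obtain ⟨b, rfl⟩ := exists_ext M ψ
  refine ⟨b * a⁻¹, ?_⟩
  ext x
  rw [act_apply, act_apply, act_apply, AlgEquiv.mul_apply]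
  congr 1
  exact a.symm_apply_apply _

/-- `M` is a cubic field which is not totally real -/
structure ComplexCubic : Prop where
  degree : Module.finrank ℚ M = 3
  complex : 0 < InfinitePlace.nrComplexPlaces M

variable {M}

lemma ComplexCubic.fix_c (h : ComplexCubic M) : fix M D.c = 1 := by
  rw [TP.fix_c]
  have h1 := InfinitePlace.card_add_two_mul_card_eq_rank M
  have h2 := h.complex
  rw [h.degree] at h1
  omega

include D in
lemma ComplexCubic.deg (h : ComplexCubic M) : TP.deg M = 3 := by rw [deg_eq M D, h.degree]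

/-- the two-dimensional representation of a cubic field which is not totally real -/
lemma ComplexCubic.oddRep (h : ComplexCubic M) (E : Type) [Field E] [CharZero E] :
    OddRep D (cubRep M E (h.deg D)) := by
  classical
  have h1 := h.fix_c D
  -- the fixed embedding
  have h2 : ∃! φ : M →ₐ[ℚ] F, act M D.c φ = φ := by
    rw [fix, Nat.card_eq_one_iff_unique] at h1
    obtain ⟨h3, ⟨φ⟩⟩ := h1
    refine ⟨φ.1, ?_, fun ψ hψ => ?_⟩
    · ext x
      exact φ.2 x
    · have h4 : ∀ x, D.c (ψ x) = ψ x := fun x => by rw [← act_apply, hψ]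
      exact congrArg Subtype.val (Subsingleton.elim (⟨ψ, h4⟩ : {φ : M →ₐ[ℚ] F // ∀ x, D.c (φ x) = φ x}) φ)
  obtain ⟨φ, hφ, hu⟩ := h2
  constructor
  · rw [cubRep_det]
    have h3 : ∀ s : Equiv.Perm (Fin 3), Fintype.card {i // s i = i} = 1 →
        Equiv.Perm.sign s = -1 := by decide
    have h4 : Nat.card {i // ((num M).trans (finCongr (h.deg D))).permCongr (act M D.c) i = i} = 1 := by
      have h5 := cubRep_trace M ℚ (h.deg D) D.c
      rw [cubRep_apply, stdE_trace, h1, ← Nat.card_eq_fintype_card] at h5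
      have h6 : ((Nat.card {i // ((num M).trans (finCongr (h.deg D))).permCongr (act M D.c) i = i} : ℕ) : ℚ)
          = ((1 : ℕ) : ℚ) := by linarith
      exact_mod_cast h6
    rw [Nat.card_eq_fintype_card] at h4
    have h5 := h3 _ h4
    rw [Equiv.Perm.sign_permCongr] at h5
    have h6 : sgn M D.c = -1 := by
      change ((Equiv.Perm.sign (act M D.c) : ℤˣ) : ℤ) = -1
      rw [h5]
      rfl
    rw [h6]
    push_cast
    rfl
  · -- another embedding
    obtain ⟨ψ, hψ⟩ : ∃ ψ : M →ₐ[ℚ] F, ψ ≠ φ := by
      have h3 : 1 < Nat.card (M →ₐ[ℚ] F) := by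
        have := h.deg D
        rw [TP.deg] at this
        omega
      have : Nontrivial (M →ₐ[ℚ] F) := (Finite.one_lt_card_iff_nontrivial).mp h3
      exact exists_ne φ
    obtain ⟨σ, hσ⟩ := act_trans M φ ψ
    refine ⟨D.c, σ, fun hcomm => hψ (hu ψ ?_)⟩
    let e := ((num M).trans (finCongr (h.deg D))).permCongrHom
    have h3 : e (act M D.c) * e (act M σ) = e (act M σ) * e (act M D.c) := by
      apply stdZ_comm
      have h4 : (stdZ (e (act M D.c)) * stdZ (e (act M σ))).map (Int.castRingHom E)
          = (stdZ (e (act M σ)) * stdZ (e (act M D.c))).map (Int.castRingHom E) := by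
        rw [Matrix.map_mul, Matrix.map_mul]
        exact hcomm
      exact Matrix.map_injective (Int.cast_injective) h4
    rw [← map_mul, ← map_mul] at h3
    have h5 := e.injective h3
    have h6 := Equiv.Perm.congr_fun h5 φ
    rw [Equiv.Perm.mul_apply, Equiv.Perm.mul_apply, hφ, hσ] at h6
    exact h6

end Pool.Agent.U213.TP
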