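import Mathlib
import Pool.Agent.U213.TP.Cubic

/-!
# Restrictions of scalars from cubic, quartic and quintic fields and their twists by even characters
-/

set_option autoImplicit false
set_option linter.unusedSectionVars false

open NumberField Filter Topology

namespace Pool.Agent.U213.TP

open Pool.Agent.U213.EC

variable {F : Type} [Field F] [NumberField F] [IsGalois ℚ F] {M : IntermediateField ℚ F}
  (D : Data F)

/-- **(i) and (ii) of the problem** for `A = A₀ ⊗ σ` and the even Dirichlet character `χ` modulo `f`: the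
coefficient field is the number field `E`, which contains the values of `χ`; `ψ` is the character of
`Gal(F/ℚ)` given by `χ`. There is `e` in `E` such that for all embeddings `τ` of `E` in `ℂ` the L-function
`ℓ` of `A` twisted by `τψ` satisfies `G(τχ⁻¹)^d ℓ(1) / Ω_A = τ(e)`, where `G` is the Gauss sum and `Ω_A` is
Deligne's period `D.period σ = R(det σ) Ω₊ ^ d⁺ Ω₋ ^ d⁻` of `A`. -/
def Reciprocity {E : Type} [Field E] (f : ℕ) (χ : (ZMod f)ˣ →* Eˣ) (ψ : (F ≃ₐ[ℚ] F) →* Eˣ) {d : ℕ}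
    (σ : (F ≃ₐ[ℚ] F) →* Matrix (Fin d) (Fin d) ℚ) : Prop :=
  ∃ e : E, ∀ τ : E →+* ℂ, ∃ ℓ : ℂ → ℂ,
    D.IsL (fun g => τ ((ψ g : Eˣ) : E) * (((σ g).trace : ℚ) : ℂ)) ℓ ∧
    Tendsto (fun s => gaussSum' f (fun a => τ (((χ a)⁻¹ : Eˣ) : E)) ^ d * ℓ s /
      D.period ((algebraMap ℚ ℂ).mapMatrix.toMonoidHom.comp σ)) (𝓝[≠] 1) (𝓝 (τ e))

/-- `ψ` is the character of `Gal(F/ℚ)` given by the Dirichlet character `χ` modulo `f`, the field `F`
contains `exp (2 π i / f)`, and `ψ` is even -/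
structure EvenChar {E : Type} [Field E] (f : ℕ) (χ : (ZMod f)ˣ →* Eˣ) (ψ : (F ≃ₐ[ℚ] F) →* Eˣ) :
    Prop where
  mod : f ≠ 0
  root : ∃ ζ : F, D.ι ζ = Complex.exp (2 * Real.pi * Complex.I / f) ∧
    ∀ (g : F ≃ₐ[ℚ] F) (u : (ZMod f)ˣ), g ζ = ζ ^ (u : ZMod f).val → ψ g = χ u
  even : ψ D.c = 1

variable {D}

section

variable (h1 : LinearTwists) (h2 : RankinProducts) (h3 : TripleProducts) {E : Type} [Field E]
  [NumberField E] {f : ℕ} {χ : (ZMod f)ˣ →* Eˣ} {ψ : (F ≃ₐ[ℚ] F) →* Eˣ} (hψ : EvenChar D f χ ψ)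

include h1 h2 h3 hψ

/-- the general criterion -/
theorem reciprocity {d : ℕ} (σ : (F ≃ₐ[ℚ] F) →* Matrix (Fin d) (Fin d) ℚ) {I J : Type}
    [Fintype I] [Fintype J] (a : I → (F ≃ₐ[ℚ] F) → E) (b : J → (F ≃ₐ[ℚ] F) → E)
    (ha : ∀ i, Basic D (a i)) (hb : ∀ j, Basic D (b j))
    (hne : ∀ j, ∃ τ : E →+* ℂ, NonzeroAtOne D (fun σ => τ (b j σ)))
    (hid : ∀ g, ((ψ g : Eˣ) : E) * (((σ g).trace : ℚ) : E) + ∑ j, b j g = ∑ i, a i g) :
    Reciprocity D f χ ψ σ := by
  obtain ⟨ζ, hζ, h⟩ := hψ.root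
  refine gauss_form D σ hψ.mod hζ E χ ψ h hψ.even ?_
  refine deligne_comb D h1 h2 h3 (EC.tw σ ψ) a b ha hb hne fun g => ?_
  rw [tw_trace, ← hid g]
  congr 2

/-- cubic fields -/
theorem reciprocity_cubic (hM : ComplexCubic M) : Reciprocity D f χ ψ (permRep M ℚ) := by
  have hodd := odd_tw D (hM.oddRep D E) ψ (by rw [hψ.even, Units.val_one, one_pow])
  refine reciprocity h1 h2 h3 hψ (permRep M ℚ) (I := Bool) (J := Empty)
    (fun b g => cond b ((ψ g : Eˣ) : E) (tw ψ (cubRep M E (hM.deg D)) g).trace) (fun j => j.elim)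
    (fun b => ?_) (fun j => j.elim) (fun j => j.elim) fun g => ?_
  · cases b
    · exact Or.inr (Or.inl ⟨_, hodd, fun g => rfl⟩)
    · exact basic_lin D ψ
  · simp only [Finset.univ_eq_empty, Finset.sum_empty, add_zero, Fintype.sum_bool, cond_true,
      cond_false]
    rw [tw_apply, Matrix.trace_smul, smul_eq_mul, cubRep_trace, permRep_trace]
    push_cast
    ring

/-- the abelian surfaces of the cubic fields -/
theorem reciprocity_surface (hM : ComplexCubic M) :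
    Reciprocity D f χ ψ (cubRep M ℚ (hM.deg D)) := by
  have hodd := odd_tw D (hM.oddRep D E) ψ (by rw [hψ.even, Units.val_one, one_pow])
  refine reciprocity h1 h2 h3 hψ (cubRep M ℚ (hM.deg D)) (I := Unit) (J := Empty)
    (fun _ g => (tw ψ (cubRep M E (hM.deg D)) g).trace) (fun j => j.elim)
    (fun _ => ?_) (fun j => j.elim) (fun j => j.elim) fun g => ?_
  · exact Or.inr (Or.inl ⟨_, hodd, fun g => rfl⟩)
  · simp only [Finset.univ_eq_empty, Finset.sum_empty, add_zero, Finset.univ_unique,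
      Finset.sum_const, Finset.card_singleton, one_smul]
    rw [tw_apply, Matrix.trace_smul, smul_eq_mul, cubRep_trace, cubRep_trace]
    push_cast
    ring

end

/-- the second representation for quartic fields -/
lemma quartic_partner {E : Type} [Field E] [CharZero E] (hM : Module.finrank ℚ M = 4)
    {ρ : (F ≃ₐ[ℚ] F) →* Matrix (Fin 2) (Fin 2) E} (hρ : OddRep D ρ) (hc : Cuts M ρ) :
    ∃ ρ' : (F ≃ₐ[ℚ] F) →* Matrix (Fin 2) (Fin 2) E, OddRep D ρ' ∧
      (∀ σ, (ρ σ).det * (ρ' σ).det = 1) ∧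
      ∀ σ, (ρ σ).trace * (ρ' σ).trace = fix M σ + sgn M σ - 1 := by
  have hdeg : deg M = 4 := by rw [deg_eq M D, hM]
  have hid := quartic_identity M hdeg ρ hc
  have hdet : ∀ σ, (ρ σ).det ≠ 0 := by
    intro σ h
    have h4 : (ρ σ).det * (ρ σ⁻¹).det = 1 := by
      rw [← Matrix.det_mul, ← map_mul, mul_inv_cancel, map_one, Matrix.det_one]
    rw [h, zero_mul] at h4
    exact zero_ne_one h4
  let δ : (F ≃ₐ[ℚ] F) →* Eˣ := (Matrix.detMonoidHom.comp ρ).toHomUnits
  have hδ : ∀ σ, ((δ σ : Eˣ) : E) = (ρ σ).det := fun σ => rfl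
  let lam : (F ≃ₐ[ℚ] F) →* Eˣ := sgnHom M E * δ⁻¹
  have hlam : ∀ σ, ((lam σ : Eˣ) : E) = sgn M σ * ((ρ σ).det)⁻¹ := by
    intro σ
    change (((sgnHom M E * δ⁻¹) σ : Eˣ) : E) = _
    rw [MonoidHom.mul_apply, MonoidHom.inv_apply, Units.val_mul, Units.val_inv_eq_inv_val,
      sgnHom_coe, hδ]
  refine ⟨tw lam ρ, ?_, fun σ => ?_, fun σ => ?_⟩
  · refine odd_tw D hρ lam ?_
    rw [hlam, hρ.odd, mul_pow, pow_two, sgnHom_sq]
    norm_num
  · rw [tw_apply, Matrix.det_smul, Fintype.card_fin, hlam, mul_pow, pow_two (sgn M σ : E),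
      sgnHom_sq, one_mul]
    field_simp [hdet σ]
  · rw [tw_apply, Matrix.trace_smul, smul_eq_mul, hlam]
    have h4 := hid σ
    have h5 := hdet σ
    field_simp
    linear_combination -h4

section

variable (h1 : LinearTwists) (h2 : RankinProducts) (h3 : TripleProducts) {E : Type} [Field E]
  [NumberField E] {f : ℕ} {χ : (ZMod f)ˣ →* Eˣ} {ψ : (F ≃ₐ[ℚ] F) →* Eˣ} (hψ : EvenChar D f χ ψ)
  (hq : ψ ^ 2 = 1)

include hq in
omit [NumberField E] in
lemma sq_apply (g : F ≃ₐ[ℚ] F) : ((ψ g : Eˣ) : E) ^ 2 = 1 := by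
  have h := congrArg (fun (φ : (F ≃ₐ[ℚ] F) →* Eˣ) => ((φ g : Eˣ) : E)) hq
  simpa using h

include h1 h2 h3 hψ hq

/-- quartic fields and quadratic characters -/
theorem reciprocity_quartic (hM : Module.finrank ℚ M = 4)
    {ρ : (F ≃ₐ[ℚ] F) →* Matrix (Fin 2) (Fin 2) E} (hρ : OddRep D ρ) (hc : Cuts M ρ)
    (hs : IsSquare (discr M) ∨ ∃ τ : E →+* ℂ,
      NonzeroAtOne D (fun σ => τ ((ψ σ : Eˣ) : E) * (sgn M σ : ℂ))) :
    Reciprocity D f χ ψ (permRep M ℚ) := by
  obtain ⟨ρ', hρ', hd, ht⟩ := quartic_partner hM hρ hc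
  have hodd := odd_tw D hρ ψ (by rw [hψ.even, Units.val_one, one_pow])
  have hb : Basic D (fun g => (tw ψ ρ g).trace * (ρ' g).trace) := by
    refine Or.inr (Or.inr ⟨tw ψ ρ, ρ', hodd, hρ', fun g => ?_, fun g => rfl⟩)
    rw [tw_apply, Matrix.det_smul, Fintype.card_fin, sq_apply hq, one_mul, hd]
  have ht' : ∀ g, (tw ψ ρ g).trace * (ρ' g).trace
      = ((ψ g : Eˣ) : E) * (fix M g + sgn M g - 1) := by
    intro g
    rw [tw_apply, Matrix.trace_smul, smul_eq_mul, mul_assoc, ht]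
  rcases hs with hs | ⟨τ, hs⟩
  · have h6 := sgn_of_square M D hs
    refine reciprocity h1 h2 h3 hψ (permRep M ℚ) (I := Unit) (J := Empty)
      (fun _ g => (tw ψ ρ g).trace * (ρ' g).trace)
      (fun j => j.elim) (fun _ => hb) (fun j => j.elim) (fun j => j.elim) fun g => ?_
    simp only [Finset.univ_eq_empty, Finset.sum_empty, add_zero, Finset.univ_unique,
      Finset.sum_const, Finset.card_singleton, one_smul]
    rw [ht', h6, permRep_trace]
    push_cast
    ring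
  · have hsgn : Basic D (fun g => ((ψ g : Eˣ) : E) * (sgn M g : E)) := by
      have := basic_lin D (ψ * sgnHom M E)
      simpa only [MonoidHom.mul_apply, Units.val_mul, sgnHom_coe] using this
    refine reciprocity h1 h2 h3 hψ (permRep M ℚ) (I := Bool) (J := Unit)
      (fun b g => cond b ((tw ψ ρ g).trace * (ρ' g).trace) ((ψ g : Eˣ) : E))
      (fun _ g => ((ψ g : Eˣ) : E) * (sgn M g : E))
      (fun b => ?_) (fun _ => hsgn) (fun _ => ⟨τ, ?_⟩) fun g => ?_
    · cases b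
      · exact basic_lin D ψ
      · exact hb
    · simpa only [map_mul, map_intCast] using hs
    · simp only [Finset.univ_unique, Finset.sum_const, Finset.card_singleton, one_smul,
        Fintype.sum_bool, cond_true, cond_false]
      rw [ht', permRep_trace]
      push_cast
      ring

/-- quintic fields and quadratic characters -/
theorem reciprocity_quintic (hM : Module.finrank ℚ M = 5) (hsq : IsSquare (discr M))
    (ρ ρ' : (F ≃ₐ[ℚ] F) →* Matrix (Fin 2) (Fin 2) E) (hρ : OddRep D ρ) (hρ' : OddRep D ρ')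
    (hc : Cuts M ρ) (hc' : Cuts M ρ') (hd : ∀ σ, (ρ σ).det * (ρ' σ).det = 1)
    (htr : ∀ σ, Triv M σ → ρ σ * ρ' σ = 1)
    (hne : ∀ σ, Triv M (σ ^ 5) → ¬ Triv M σ →
      (ρ σ).trace ^ 2 * (ρ' σ).det ≠ (ρ' σ).trace ^ 2 * (ρ σ).det) :
    Reciprocity D f χ ψ (permRep M ℚ) := by
  have hdeg : deg M = 5 := by rw [deg_eq M D, hM]
  have hid := quintic_identity M hdeg (sgn_of_square M D hsq) ρ ρ' hc hc' hd htr hne
  have hodd := odd_tw D hρ ψ (by rw [hψ.even, Units.val_one, one_pow])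
  have hb : Basic D (fun g => (tw ψ ρ g).trace * (ρ' g).trace) := by
    refine Or.inr (Or.inr ⟨tw ψ ρ, ρ', hodd, hρ', fun g => ?_, fun g => rfl⟩)
    rw [tw_apply, Matrix.det_smul, Fintype.card_fin, sq_apply hq, one_mul, hd]
  refine reciprocity h1 h2 h3 hψ (permRep M ℚ) (I := Bool) (J := Empty)
    (fun b g => cond b ((tw ψ ρ g).trace * (ρ' g).trace) ((ψ g : Eˣ) : E)) (fun j => j.elim)
    (fun b => ?_) (fun j => j.elim) (fun j => j.elim) fun g => ?_
  · cases b
    · exact basic_lin D ψ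
    · exact hb
  · simp only [Finset.univ_eq_empty, Finset.sum_empty, add_zero, Fintype.sum_bool, cond_true,
      cond_false]
    have h4 : ((((permRep M ℚ g).trace : ℚ)) : E) = 1 + (ρ g).trace * (ρ' g).trace := by
      rw [permRep_trace, ← hid g]
      push_cast
      rfl
    rw [h4, tw_apply, Matrix.trace_smul, smul_eq_mul]
    ring

end

end Pool.Agent.U213.TP
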